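import Mathlib

/-!
Certificate inequalities in two real variables: `A(s) + B z + T(s) z (s - z) ≤ lam exp(rho s + del z)`
with `s = y + z`. Reduction to one variable (tangent at `z0`), and pieces.
-/

set_option linter.style.longLine false

namespace Pool.Agent.H26.RM

open Real

theorem tangent {rho del lam A B T s z X z0 : ℝ} (hT : 0 < T) (hlam : 0 ≤ lam)
    (hX : X = lam * exp (rho * s + del * z0))
    (hG : del ^ 2 * X ^ 2 + (B + T * s) ^ 2 + 4 * T * A ≤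
      (4 * T * (1 - del * z0) + 2 * del * (B + T * s)) * X) :
    A + B * z + T * (z * (s - z)) ≤ lam * exp (rho * s + del * z) := by
  have h1 : exp (rho * s + del * z) = exp (rho * s + del * z0) * exp (del * (z - z0)) := by
    rw [← exp_add]; congr 1; ring
  have h2 : 1 + del * (z - z0) ≤ exp (del * (z - z0)) := by
    have := add_one_le_exp (del * (z - z0))
    linarith
  have hE := exp_pos (rho * s + del * z0)
  have h3 : X * (1 + del * (z - z0)) ≤ lam * exp (rho * s + del * z) := by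
    rw [h1, hX, mul_assoc]
    exact mul_le_mul_of_nonneg_left (mul_le_mul_of_nonneg_left h2 hE.le) hlam
  refine le_trans ?_ h3
  have h4 : 0 ≤ 4 * T * (X * (1 + del * (z - z0)) - (A + B * z + T * (z * (s - z)))) := by
    have e : 4 * T * (X * (1 + del * (z - z0)) - (A + B * z + T * (z * (s - z)))) =
        (2 * T * z + (del * X - B - T * s)) ^ 2 +
        ((4 * T * (1 - del * z0) + 2 * del * (B + T * s)) * X -
          (del ^ 2 * X ^ 2 + (B + T * s) ^ 2 + 4 * T * A)) := by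
      ring
    rw [e]
    have := sq_nonneg (2 * T * z + (del * X - B - T * s))
    linarith
  have h5 : 0 < 4 * T := by linarith
  have := nonneg_of_mul_nonneg_right h4 h5
  linarith

theorem exp_lower {x : ℝ} (hx : |x| ≤ 1) :
    1 + x + x ^ 2 / 2 + x ^ 3 / 6 + x ^ 4 / 24 + x ^ 5 / 120 - 7 / 4320 * x ^ 6 ≤ exp x := by
  have h := Real.exp_bound hx (n := 6) (by norm_num)
  rw [abs_le] at h
  have e : |x| ^ 6 = x ^ 6 := Even.pow_abs (by decide) x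
  rw [e] at h
  have h1 := h.1
  simp only [Finset.sum_range_succ, Finset.sum_range_zero, Nat.factorial] at h1
  norm_num at h1
  linarith

theorem exp_upper {x : ℝ} (hx : |x| ≤ 1) :
    exp x ≤ 1 + x + x ^ 2 / 2 + x ^ 3 / 6 + x ^ 4 / 24 + x ^ 5 / 120 + 7 / 4320 * x ^ 6 := by
  have h := Real.exp_bound hx (n := 6) (by norm_num)
  rw [abs_le] at h
  have e : |x| ^ 6 = x ^ 6 := Even.pow_abs (by decide) x
  rw [e] at h
  have h1 := h.2
  simp only [Finset.sum_range_succ, Finset.sum_range_zero, Nat.factorial] at h1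
  norm_num at h1
  linarith

theorem bern3 {u v : ℝ} (hu : 0 ≤ u) (hv : 0 ≤ v) {b0 b1 b2 b3 : ℝ}
    (h0 : 0 ≤ b0) (h1 : 0 ≤ b1) (h2 : 0 ≤ b2) (h3 : 0 ≤ b3) :
    0 ≤ b0 * u ^ 3 + b1 * (u ^ 2 * v) + b2 * (u * v ^ 2) + b3 * v ^ 3 := by
  positivity

theorem bern7 {u v : ℝ} (hu : 0 ≤ u) (hv : 0 ≤ v) {b0 b1 b2 b3 b4 b5 b6 b7 : ℝ}
    (h0 : 0 ≤ b0) (h1 : 0 ≤ b1) (h2 : 0 ≤ b2) (h3 : 0 ≤ b3) (h4 : 0 ≤ b4) (h5 : 0 ≤ b5)
    (h6 : 0 ≤ b6) (h7 : 0 ≤ b7) :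
    0 ≤ b0 * u ^ 7 + b1 * (u ^ 6 * v) + b2 * (u ^ 5 * v ^ 2) + b3 * (u ^ 4 * v ^ 3) +
      b4 * (u ^ 3 * v ^ 4) + b5 * (u ^ 2 * v ^ 5) + b6 * (u * v ^ 6) + b7 * v ^ 7 := by
  positivity

theorem bern9 {u v : ℝ} (hu : 0 ≤ u) (hv : 0 ≤ v) {b0 b1 b2 b3 b4 b5 b6 b7 b8 b9 : ℝ}
    (h0 : 0 ≤ b0) (h1 : 0 ≤ b1) (h2 : 0 ≤ b2) (h3 : 0 ≤ b3) (h4 : 0 ≤ b4) (h5 : 0 ≤ b5)
    (h6 : 0 ≤ b6) (h7 : 0 ≤ b7) (h8 : 0 ≤ b8) (h9 : 0 ≤ b9) :
    0 ≤ b0 * u ^ 9 + b1 * (u ^ 8 * v) + b2 * (u ^ 7 * v ^ 2) + b3 * (u ^ 6 * v ^ 3) +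
      b4 * (u ^ 5 * v ^ 4) + b5 * (u ^ 4 * v ^ 5) + b6 * (u ^ 3 * v ^ 6) + b7 * (u ^ 2 * v ^ 7) +
      b8 * (u * v ^ 8) + b9 * v ^ 9 := by
  positivity

/-- One piece of the certificate inequality. -/
theorem main {rho del lam B : ℝ} {Tf Af : ℝ → ℝ} (hT : ∀ s, 0 < Tf s) (hlam : 0 ≤ lam)
    {sc H z0c b rc κ lo hi : ℝ} (hlo : 0 ≤ lo) (h1 : lo ≤ exp rc) (h2 : exp rc ≤ hi)
    (hrc : rc = rho * sc + del * z0c) (hκ : κ = rho + del * b) (hκ1 : 2 * κ * H ≤ 1)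
    (hκ2 : -1 ≤ 2 * κ * H)
    (hlin : ∀ h, -H ≤ h → h ≤ H →
      0 ≤ 4 * Tf (sc + h) * (1 - del * (z0c + b * h)) + 2 * del * (B + Tf (sc + h) * (sc + h)))
    (hΨ : ∀ h, -H ≤ h → h ≤ H → 0 ≤
      (4 * Tf (sc + h) * (1 - del * (z0c + b * h)) + 2 * del * (B + Tf (sc + h) * (sc + h))) *
        (lam * lo * (1 + κ * h + (κ * h) ^ 2 / 2 + (κ * h) ^ 3 / 6 + (κ * h) ^ 4 / 24 +
          (κ * h) ^ 5 / 120 - 7 / 4320 * (κ * h) ^ 6)) -
      (del * (lam * hi)) ^ 2 *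
        (1 + (2 * κ * h) + (2 * κ * h) ^ 2 / 2 + (2 * κ * h) ^ 3 / 6 + (2 * κ * h) ^ 4 / 24 +
          (2 * κ * h) ^ 5 / 120 + 7 / 4320 * (2 * κ * h) ^ 6) -
      (B + Tf (sc + h) * (sc + h)) ^ 2 - 4 * Tf (sc + h) * Af (sc + h))
    {s : ℝ} (hs1 : sc - H ≤ s) (hs2 : s ≤ sc + H) (z : ℝ) :
    Af s + B * z + Tf s * (z * (s - z)) ≤ lam * exp (rho * s + del * z) := by
  obtain ⟨h, rfl⟩ : ∃ h, s = sc + h := ⟨s - sc, by ring⟩
  have hh1 : -H ≤ h := by linarith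
  have hh2 : h ≤ H := by linarith
  have hT' := hT (sc + h)
  have hH : 0 ≤ H := by linarith
  have habs : |h| ≤ H := abs_le.2 ⟨hh1, hh2⟩
  have hx2 : |2 * κ * h| ≤ 1 := by
    have e1 : |2 * κ * h| = |2 * κ| * |h| := abs_mul _ _
    have e2 : |2 * κ * H| = |2 * κ| * H := by rw [abs_mul, abs_of_nonneg hH]
    have e3 : |2 * κ * H| ≤ 1 := abs_le.2 ⟨hκ2, hκ1⟩
    rw [e1]
    refine le_trans ?_ e3
    rw [e2]
    exact mul_le_mul_of_nonneg_left habs (abs_nonneg _)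
  have hx1 : |κ * h| ≤ 1 := by
    have : |2 * κ * h| = 2 * |κ * h| := by rw [mul_assoc, abs_mul, abs_of_pos (by norm_num : (0:ℝ) < 2)]
    rw [this] at hx2
    have := abs_nonneg (κ * h)
    linarith
  have hL := exp_lower hx1
  have hU := exp_upper hx2
  have hp := exp_pos (κ * h)
  have hr := exp_pos rc
  set p := exp (κ * h) with hpdef
  have hp2 : exp (2 * κ * h) = p ^ 2 := by
    rw [hpdef, ← exp_nat_mul]; congr 1; push_cast; ring
  rw [hp2] at hU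
  have hXeq : lam * (exp rc * p) = lam * exp (rho * (sc + h) + del * (z0c + b * h)) := by
    rw [hpdef, ← exp_add]
    congr 2
    rw [hrc, hκ]
    ring
  refine tangent hT' hlam hXeq ?_
  have hψ := hΨ h hh1 hh2
  have hl := hlin h hh1 hh2
  set L := 4 * Tf (sc + h) * (1 - del * (z0c + b * h)) + 2 * del * (B + Tf (sc + h) * (sc + h))
    with hLdef
  set P := 1 + κ * h + (κ * h) ^ 2 / 2 + (κ * h) ^ 3 / 6 + (κ * h) ^ 4 / 24 + (κ * h) ^ 5 / 120 -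
          7 / 4320 * (κ * h) ^ 6 with hP
  set U := 1 + (2 * κ * h) + (2 * κ * h) ^ 2 / 2 + (2 * κ * h) ^ 3 / 6 + (2 * κ * h) ^ 4 / 24 +
          (2 * κ * h) ^ 5 / 120 + 7 / 4320 * (2 * κ * h) ^ 6 with hUdef
  have k1 : L * (lam * lo * P) ≤ L * (lam * (exp rc * p)) := by
    refine mul_le_mul_of_nonneg_left ?_ hl
    have a1 : lo * P ≤ lo * p := mul_le_mul_of_nonneg_left hL hlo
    have a2 : lo * p ≤ exp rc * p := mul_le_mul_of_nonneg_right h1 hp.le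
    rw [mul_assoc]
    exact mul_le_mul_of_nonneg_left (a1.trans a2) hlam
  have k2 : del ^ 2 * (lam * (exp rc * p)) ^ 2 ≤ (del * (lam * hi)) ^ 2 * U := by
    have a1 : exp rc ^ 2 ≤ hi ^ 2 := pow_le_pow_left₀ hr.le h2 2
    have a2 : exp rc ^ 2 * p ^ 2 ≤ hi ^ 2 * U :=
      mul_le_mul a1 hU (by positivity) (by positivity)
    have e1 : del ^ 2 * (lam * (exp rc * p)) ^ 2 = (del ^ 2 * lam ^ 2) * (exp rc ^ 2 * p ^ 2) := by
      ring
    have e2 : (del * (lam * hi)) ^ 2 * U = (del ^ 2 * lam ^ 2) * (hi ^ 2 * U) := by ring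
    rw [e1, e2]
    exact mul_le_mul_of_nonneg_left a2 (by positivity)
  linarith

/-- The maximum over `z`. -/
theorem le_max {A B T s z : ℝ} (hT : 0 < T) (hG : (B + T * s) ^ 2 + 4 * T * A ≤ 0) :
    A + B * z + T * (z * (s - z)) ≤ 0 := by
  have h4 : 4 * T * (A + B * z + T * (z * (s - z))) ≤ 0 := by
    have e : 4 * T * (A + B * z + T * (z * (s - z))) =
        ((B + T * s) ^ 2 + 4 * T * A) - (2 * T * z - (B + T * s)) ^ 2 := by
      ring
    rw [e]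
    have := sq_nonneg (2 * T * z - (B + T * s))
    linarith
  by_contra h
  rw [not_le] at h
  have : 0 < 4 * T * (A + B * z + T * (z * (s - z))) := by positivity
  linarith

/-- Bound by a function of `s`. -/
theorem le_sq {A B T s z T0 : ℝ} (hT0 : 0 < T0) (hT : T0 ≤ T) :
    A + B * z + T * (z * (s - z)) ≤ A + B ^ 2 / (4 * T0) + B * s / 2 + T * s ^ 2 / 4 := by
  have hTp : 0 < T := lt_of_lt_of_le hT0 hT
  have e : A + B ^ 2 / (4 * T0) + B * s / 2 + T * s ^ 2 / 4 - (A + B * z + T * (z * (s - z))) =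
      T * (z - s / 2) ^ 2 - B * (z - s / 2) + B ^ 2 / (4 * T0) := by ring
  have h1 : T0 * (z - s / 2) ^ 2 ≤ T * (z - s / 2) ^ 2 :=
    mul_le_mul_of_nonneg_right hT (sq_nonneg _)
  have h2 : T0 * (z - s / 2) ^ 2 - B * (z - s / 2) + B ^ 2 / (4 * T0) =
      T0 * ((z - s / 2) - B / (2 * T0)) ^ 2 := by
    field_simp
    ring
  have h3 : 0 ≤ T0 * ((z - s / 2) - B / (2 * T0)) ^ 2 := by positivity
  linarith

theorem exp_one_ge : (27 / 10 : ℝ) ≤ exp 1 := by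
  have := exp_one_gt_d9
  linarith

/-- lower bound of `exp (25 + r / 2)` -/
theorem exp_big {r : ℝ} (hr : 0 ≤ r) : (6 : ℝ) * 10 ^ 10 * (1 + r / 10) ^ 5 ≤ exp (25 + r / 2) := by
  rw [exp_add]
  have h1 : (6 : ℝ) * 10 ^ 10 ≤ exp 25 := by
    have e : exp 25 = exp 1 ^ 25 := by rw [← exp_nat_mul]; norm_num
    rw [e]
    refine le_trans ?_ (pow_le_pow_left₀ (by norm_num) exp_one_ge 25)
    norm_num
  have h2 : (1 + r / 10) ^ 5 ≤ exp (r / 2) := by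
    have e : exp (r / 2) = exp (r / 10) ^ 5 := by rw [← exp_nat_mul]; congr 1; push_cast; ring
    rw [e]
    refine pow_le_pow_left₀ (by positivity) ?_ 5
    linarith [add_one_le_exp (r / 10)]
  exact mul_le_mul h1 h2 (by positivity) (exp_pos _).le

/-- the tail term dominates `exp ((y + z) / 2)` -/
theorem tail_ge (y z : ℝ) : exp ((y + z) / 2) ≤ exp y + exp z := by
  rcases le_total y z with h | h
  · have : exp ((y + z) / 2) ≤ exp z := exp_le_exp.2 (by linarith)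
    have := exp_pos y
    linarith
  · have : exp ((y + z) / 2) ≤ exp y := exp_le_exp.2 (by linarith)
    have := exp_pos z
    linarith

theorem pow_le_one_add {x : ℝ} (hx : 0 ≤ x) {k : ℕ} (hk : k ≤ 5) : x ^ k ≤ 1 + x ^ 5 := by
  rcases le_total x 1 with h | h
  · have := pow_le_one₀ (n := k) hx h
    have := pow_nonneg hx 5
    linarith
  · have := pow_le_pow_right₀ h hk
    linarith

theorem sum_pow_le {a b : ℝ} (ha : 0 ≤ a) (hb : 0 ≤ b) : (a + b) ^ 5 ≤ 16 * (a ^ 5 + b ^ 5) := by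
  have := add_pow_le ha hb 5
  norm_num at this
  linarith

end Pool.Agent.H26.RM
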