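import Pool.Agent.H26.RM.Gen
import Pool.Agent.H34.RM.Rows2

/-!
Polynomial certificate for the shape `s = 8/25`, `t = 131/400`, `la = 1151/1000`, `la' = 1191/1000` (three set theorem, MP_28724c_co).
Generated.
-/

set_option linter.style.longLine false

namespace Pool.Agent.H26.RM.ShpA

open Real Finset

/-- the coefficient of `y z` as a function of `s = y + z` -/
noncomputable def Tf (s : ℝ) : ℝ := (1377 / 2000) + (1259 / 10000) * s + (73 / 12500) * s ^ 2

/-- the part of the certificate depending on `s = y + z` only -/
noncomputable def Af (s : ℝ) : ℝ := 1 + (123 / 200) * s + (197 / 10000000) * s ^ 5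

theorem Tf_ge (s : ℝ) : (199 / 20000) ≤ Tf s := by
  unfold Tf
  nlinarith [sq_nonneg (s + (6295 / 584))]

theorem Tf_pos (s : ℝ) : 0 < Tf s := lt_of_lt_of_le (by norm_num) (Tf_ge s)

theorem r_enc_0 : ((10970064851 / 100000000000) : ℝ) ≤ exp (-221 / 100) ∧ exp (-221 / 100) ≤ (2742516213 / 25000000000) := by
  have hx : |((-221 / 400) : ℝ)| ≤ 1 := by norm_num [abs_le]
  have h := Real.exp_bound hx (n := 16) (by norm_num)
  rw [abs_le] at h
  obtain ⟨h1, h2⟩ := h
  simp only [Finset.sum_range_succ, Finset.sum_range_zero, Nat.factorial] at h1 h2
  norm_num [abs_of_neg, abs_of_pos] at h1 h2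
  have l1 : ((287754618660579 / 500000000000000) : ℝ) ≤ exp (-221 / 400) := by norm_num; linarith
  have u1 : exp (-221 / 400) ≤ (575509237321159 / 1000000000000000) := by norm_num; linarith
  have e : exp (-221 / 100) = exp (-221 / 400) ^ 4 := by
    rw [← exp_nat_mul]; norm_num
  rw [e]
  constructor
  · refine le_trans ?_ (pow_le_pow_left₀ (by norm_num) l1 4)
    norm_num
  · refine (pow_le_pow_left₀ (exp_pos _).le u1 4).trans ?_
    norm_num

theorem r_piece_0 {s : ℝ} (h1 : (-4) ≤ s) (h2 : s ≤ (-5 / 2)) (z : ℝ) :
    Af s + (-303 / 10000) * z + Tf s * (z * (s - z)) ≤ (1151 / 1000) * exp (1 * s + (-269 / 400) * z) := by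
  refine Pool.Agent.H26.RM.main (Tf := Tf) (Af := Af) (B := (-303 / 10000)) Tf_pos (by norm_num) (sc := (-13 / 4)) (H := (3 / 4)) (z0c := (-416 / 269)) (b := (279 / 500))
    (rc := (-221 / 100)) (κ := (124949 / 200000)) (lo := (10970064851 / 100000000000)) (hi := (2742516213 / 25000000000))
    (by norm_num) r_enc_0.1 r_enc_0.2 (by norm_num) (by norm_num) (by norm_num) (by norm_num) ?_ ?_
    (by linarith) (by linarith) z
  · intro h a1 a2
    have hu : 0 ≤ (3 / 4) - h := by linarith
    have hv : 0 ≤ (3 / 4) + h := by linarith
    have key := bern3 hu hv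
      (show (0 : ℝ) ≤ (3934476233 / 11250000000) by norm_num)
      (show (0 : ℝ) ≤ (9094312913 / 7500000000) by norm_num)
      (show (0 : ℝ) ≤ (525049667 / 375000000) by norm_num)
      (show (0 : ℝ) ≤ (484379791 / 900000000) by norm_num)
    refine key.trans_eq ?_
    unfold Tf
    ring
  · intro h a1 a2
    have hu : 0 ≤ (3 / 4) - h := by linarith
    have hv : 0 ≤ (3 / 4) + h := by linarith
    have key := bern9 hu hv
      (show (0 : ℝ) ≤ (9403504533881920569845797741464067826257898082058699475767617804133 / 839808000000000000000000000000000000000000000000000000000000000000000) by norm_num)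
      (show (0 : ℝ) ≤ (76507511747230590454521179732799967651804952775959935924338886331351 / 839808000000000000000000000000000000000000000000000000000000000000000) by norm_num)
      (show (0 : ℝ) ≤ (2739711840137420623077524065254307252112736133655371961974693627 / 8398080000000000000000000000000000000000000000000000000000000000) by norm_num)
      (show (0 : ℝ) ≤ (17703279200685330093064355417492521886607636223514104286603956703377 / 26244000000000000000000000000000000000000000000000000000000000000000) by norm_num)
      (show (0 : ℝ) ≤ (372544739016342146677802443012020633205552944491534742204376158787601 / 419904000000000000000000000000000000000000000000000000000000000000000) by norm_num)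
      (show (0 : ℝ) ≤ (323076428706834909564621622302121381362981675833734268505034806743851 / 419904000000000000000000000000000000000000000000000000000000000000000) by norm_num)
      (show (0 : ℝ) ≤ (46168205466001707746005111059275303410732330374993483725847606941633 / 104976000000000000000000000000000000000000000000000000000000000000000) by norm_num)
      (show (0 : ℝ) ≤ (5366064589924232104156994851686016296470351801304310388233507367 / 33592320000000000000000000000000000000000000000000000000000000000) by norm_num)
      (show (0 : ℝ) ≤ (28090041433139635724729217606489619630467875930043121997077146387601 / 839808000000000000000000000000000000000000000000000000000000000000000) by norm_num)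
      (show (0 : ℝ) ≤ (860974700610838403800695271423882171354874003618686100859967165961 / 279936000000000000000000000000000000000000000000000000000000000000000) by norm_num)
    refine key.trans_eq ?_
    unfold Tf Af
    ring

theorem r_enc_1 : ((6881769577 / 25000000000) : ℝ) ≤ exp (-129 / 100) ∧ exp (-129 / 100) ≤ (27527078309 / 100000000000) := by
  have hx : |((-129 / 200) : ℝ)| ≤ 1 := by norm_num [abs_le]
  have h := Real.exp_bound hx (n := 16) (by norm_num)
  rw [abs_le] at h
  obtain ⟨h1, h2⟩ := h
  simp only [Finset.sum_range_succ, Finset.sum_range_zero, Nat.factorial] at h1 h2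
  norm_num [abs_of_neg, abs_of_pos] at h1 h2
  have l1 : ((16395704440831 / 31250000000000) : ℝ) ≤ exp (-129 / 200) := by norm_num; linarith
  have u1 : exp (-129 / 200) ≤ (524662542106593 / 1000000000000000) := by norm_num; linarith
  have e : exp (-129 / 100) = exp (-129 / 200) ^ 2 := by
    rw [← exp_nat_mul]; norm_num
  rw [e]
  constructor
  · refine le_trans ?_ (pow_le_pow_left₀ (by norm_num) l1 2)
    norm_num
  · refine (pow_le_pow_left₀ (exp_pos _).le u1 2).trans ?_
    norm_num

theorem r_piece_1 {s : ℝ} (h1 : (-5 / 2) ≤ s) (h2 : s ≤ (-1)) (z : ℝ) :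
    Af s + (-303 / 10000) * z + Tf s * (z * (s - z)) ≤ (1151 / 1000) * exp (1 * s + (-269 / 400) * z) := by
  refine Pool.Agent.H26.RM.main (Tf := Tf) (Af := Af) (B := (-303 / 10000)) Tf_pos (by norm_num) (sc := (-7 / 4)) (H := (3 / 4)) (z0c := (-184 / 269)) (b := (74 / 125))
    (rc := (-129 / 100)) (κ := (15047 / 25000)) (lo := (6881769577 / 25000000000)) (hi := (27527078309 / 100000000000))
    (by norm_num) r_enc_1.1 r_enc_1.2 (by norm_num) (by norm_num) (by norm_num) (by norm_num) ?_ ?_
    (by linarith) (by linarith) z
  · intro h a1 a2
    have hu : 0 ≤ (3 / 4) - h := by linarith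
    have hv : 0 ≤ (3 / 4) + h := by linarith
    have key := bern3 hu hv
      (show (0 : ℝ) ≤ (40363843 / 75000000) by norm_num)
      (show (0 : ℝ) ≤ (2076402839 / 1125000000) by norm_num)
      (show (0 : ℝ) ≤ (185417069 / 87890625) by norm_num)
      (show (0 : ℝ) ≤ (1130024041 / 1406250000) by norm_num)
    refine key.trans_eq ?_
    unfold Tf
    ring
  · intro h a1 a2
    have hu : 0 ≤ (3 / 4) - h := by linarith
    have hv : 0 ≤ (3 / 4) + h := by linarith
    have key := bern9 hu hv
      (show (0 : ℝ) ≤ (472882403676559126843232020266629494923458802132855762294552179 / 153773437500000000000000000000000000000000000000000000000000000000) by norm_num)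
      (show (0 : ℝ) ≤ (1123581313858707899464558906207493647586335159013192658645047821 / 51257812500000000000000000000000000000000000000000000000000000000) by norm_num)
      (show (0 : ℝ) ≤ (4325372109370604361991701974688773589591819581122389345901 / 64072265625000000000000000000000000000000000000000000000000) by norm_num)
      (show (0 : ℝ) ≤ (250807770905690365417345931538500133746127448035554305140539131 / 2135742187500000000000000000000000000000000000000000000000000000) by norm_num)
      (show (0 : ℝ) ≤ (3242409074372027713298449506869156915451831703349905949824247821 / 25628906250000000000000000000000000000000000000000000000000000000) by norm_num)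
      (show (0 : ℝ) ≤ (2229687493993014617872553806195703917001948036435219222205447821 / 25628906250000000000000000000000000000000000000000000000000000000) by norm_num)
      (show (0 : ℝ) ≤ (243137087462434362782948965486312434116273514891051105601817393 / 6407226562500000000000000000000000000000000000000000000000000000) by norm_num)
      (show (0 : ℝ) ≤ (646336747345217104782752263915232545867046005968336689099 / 64072265625000000000000000000000000000000000000000000000000) by norm_num)
      (show (0 : ℝ) ≤ (76471086367535522160694662411382896270660858175312653784647821 / 51257812500000000000000000000000000000000000000000000000000000000) by norm_num)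
      (show (0 : ℝ) ≤ (14691241929449471708782479349973105169856682627998279675752179 / 153773437500000000000000000000000000000000000000000000000000000000) by norm_num)
    refine key.trans_eq ?_
    unfold Tf Af
    ring

theorem r_enc_2 : ((66365025013 / 100000000000) : ℝ) ≤ exp (-41 / 100) ∧ exp (-41 / 100) ≤ (33182512507 / 50000000000) := by
  have hx : |((-41 / 100) : ℝ)| ≤ 1 := by norm_num [abs_le]
  have h := Real.exp_bound hx (n := 16) (by norm_num)
  rw [abs_le] at h
  obtain ⟨h1, h2⟩ := h
  simp only [Finset.sum_range_succ, Finset.sum_range_zero, Nat.factorial] at h1 h2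
  norm_num [abs_of_neg, abs_of_pos] at h1 h2
  have l1 : ((663650250136319 / 1000000000000000) : ℝ) ≤ exp (-41 / 100) := by norm_num; linarith
  have u1 : exp (-41 / 100) ≤ (518476757919 / 781250000000) := by norm_num; linarith
  have e : exp (-41 / 100) = exp (-41 / 100) ^ 1 := by
    rw [← exp_nat_mul]; norm_num
  rw [e]
  constructor
  · refine le_trans ?_ (pow_le_pow_left₀ (by norm_num) l1 1)
    norm_num
  · refine (pow_le_pow_left₀ (exp_pos _).le u1 1).trans ?_
    norm_num

theorem r_piece_2 {s : ℝ} (h1 : (-1) ≤ s) (h2 : s ≤ (1 / 2)) (z : ℝ) :
    Af s + (-303 / 10000) * z + Tf s * (z * (s - z)) ≤ (1151 / 1000) * exp (1 * s + (-269 / 400) * z) := by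
  refine Pool.Agent.H26.RM.main (Tf := Tf) (Af := Af) (B := (-303 / 10000)) Tf_pos (by norm_num) (sc := (-1 / 4)) (H := (3 / 4)) (z0c := (64 / 269)) (b := (163 / 250))
    (rc := (-41 / 100)) (κ := (56153 / 100000)) (lo := (66365025013 / 100000000000)) (hi := (33182512507 / 50000000000))
    (by norm_num) r_enc_2.1 r_enc_2.2 (by norm_num) (by norm_num) (by norm_num) (by norm_num) ?_ ?_
    (by linarith) (by linarith) z
  · intro h a1 a2
    have hu : 0 ≤ (3 / 4) - h := by linarith
    have hv : 0 ≤ (3 / 4) + h := by linarith
    have key := bern3 hu hv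
      (show (0 : ℝ) ≤ (2245946033 / 2812500000) by norm_num)
      (show (0 : ℝ) ≤ (10260091327 / 3750000000) by norm_num)
      (show (0 : ℝ) ≤ (586066511 / 187500000) by norm_num)
      (show (0 : ℝ) ≤ (13394364227 / 11250000000) by norm_num)
    refine key.trans_eq ?_
    unfold Tf
    ring
  · intro h a1 a2
    have hu : 0 ≤ (3 / 4) - h := by linarith
    have hv : 0 ≤ (3 / 4) + h := by linarith
    have key := bern9 hu hv
      (show (0 : ℝ) ≤ (14519727999063952950714491766662779587398075290068725789987157491 / 157464000000000000000000000000000000000000000000000000000000000000000) by norm_num)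
      (show (0 : ℝ) ≤ (1415979876797858838693248061111095956008088053485009473842832501 / 5832000000000000000000000000000000000000000000000000000000000000000) by norm_num)
      (show (0 : ℝ) ≤ (25067024732707298850152817495147628140222867028747732682599 / 174960000000000000000000000000000000000000000000000000000000000) by norm_num)
      (show (0 : ℝ) ≤ (8684559775711249853709788868198182838672320893373014152523389997 / 6561000000000000000000000000000000000000000000000000000000000000000) by norm_num)
      (show (0 : ℝ) ≤ (6130623563514762713302413191726682759446437084968463507992344167 / 972000000000000000000000000000000000000000000000000000000000000000) by norm_num)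
      (show (0 : ℝ) ≤ (103450716315303011435256576554608419985432344901527386011920947503 / 8748000000000000000000000000000000000000000000000000000000000000000) by norm_num)
      (show (0 : ℝ) ≤ (74839744544160122084724140874558347437109581050638735861321439997 / 6561000000000000000000000000000000000000000000000000000000000000000) by norm_num)
      (show (0 : ℝ) ≤ (351049059930584427798496899959307792659097331113105152768717 / 58320000000000000000000000000000000000000000000000000000000000) by norm_num)
      (show (0 : ℝ) ≤ (28612199054901911775114687788308448366321526279845625153111047503 / 17496000000000000000000000000000000000000000000000000000000000000000) by norm_num)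
      (show (0 : ℝ) ≤ (27283891277401906643463903982886475410855773767302483306769207491 / 157464000000000000000000000000000000000000000000000000000000000000000) by norm_num)
    refine key.trans_eq ?_
    unfold Tf Af
    ring

theorem r_enc_3 : ((1051267281 / 625000000) : ℝ) ≤ exp (13 / 25) ∧ exp (13 / 25) ≤ (16820276497 / 10000000000) := by
  have hx : |((13 / 25) : ℝ)| ≤ 1 := by norm_num [abs_le]
  have h := Real.exp_bound hx (n := 16) (by norm_num)
  rw [abs_le] at h
  obtain ⟨h1, h2⟩ := h
  simp only [Finset.sum_range_succ, Finset.sum_range_zero, Nat.factorial] at h1 h2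
  norm_num [abs_of_neg, abs_of_pos] at h1 h2
  have l1 : ((5256336405309 / 3125000000000) : ℝ) ≤ exp (13 / 25) := by norm_num; linarith
  have u1 : exp (13 / 25) ≤ (168202764969889 / 100000000000000) := by norm_num; linarith
  have e : exp (13 / 25) = exp (13 / 25) ^ 1 := by
    rw [← exp_nat_mul]; norm_num
  rw [e]
  constructor
  · refine le_trans ?_ (pow_le_pow_left₀ (by norm_num) l1 1)
    norm_num
  · refine (pow_le_pow_left₀ (exp_pos _).le u1 1).trans ?_
    norm_num

theorem r_piece_3 {s : ℝ} (h1 : (1 / 2) ≤ s) (h2 : s ≤ (5 / 2)) (z : ℝ) :
    Af s + (-303 / 10000) * z + Tf s * (z * (s - z)) ≤ (1151 / 1000) * exp (1 * s + (-269 / 400) * z) := by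
  refine Pool.Agent.H26.RM.main (Tf := Tf) (Af := Af) (B := (-303 / 10000)) Tf_pos (by norm_num) (sc := (3 / 2)) (H := 1) (z0c := (392 / 269)) (b := (187 / 250))
    (rc := (13 / 25)) (κ := (49697 / 100000)) (lo := (1051267281 / 625000000)) (hi := (16820276497 / 10000000000))
    (by norm_num) r_enc_3.1 r_enc_3.2 (by norm_num) (by norm_num) (by norm_num) (by norm_num) ?_ ?_
    (by linarith) (by linarith) z
  · intro h a1 a2
    have hu : 0 ≤ 1 - h := by linarith
    have hv : 0 ≤ 1 + h := by linarith
    have key := bern3 hu hv
      (show (0 : ℝ) ≤ (19912617279 / 40000000000) by norm_num)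
      (show (0 : ℝ) ≤ (71657754641 / 40000000000) by norm_num)
      (show (0 : ℝ) ≤ (17189375521 / 8000000000) by norm_num)
      (show (0 : ℝ) ≤ (1374303179 / 1600000000) by norm_num)
    refine key.trans_eq ?_
    unfold Tf
    ring
  · intro h a1 a2
    have hu : 0 ≤ 1 - h := by linarith
    have hv : 0 ≤ 1 + h := by linarith
    have key := bern9 hu hv
      (show (0 : ℝ) ≤ (5115656128838578450852617560714497529878998250286692630279553 / 552960000000000000000000000000000000000000000000000000000000000000) by norm_num)
      (show (0 : ℝ) ≤ (7423343203977885030494270148780954421465495306334727040440149 / 61440000000000000000000000000000000000000000000000000000000000000) by norm_num)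
      (show (0 : ℝ) ≤ (96230391060198646310670093981288068490968620319427114421 / 230400000000000000000000000000000000000000000000000000000000) by norm_num)
      (show (0 : ℝ) ≤ (47462752541004486442894922511522355084270693319176118236579553 / 69120000000000000000000000000000000000000000000000000000000000000) by norm_num)
      (show (0 : ℝ) ≤ (56067677393355486044670881415910092014154641350621963024520447 / 92160000000000000000000000000000000000000000000000000000000000000) by norm_num)
      (show (0 : ℝ) ≤ (59988836007175632300119278137300841575919029983895733769720447 / 92160000000000000000000000000000000000000000000000000000000000000) by norm_num)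
      (show (0 : ℝ) ≤ (97980948121119276651857587320335964292694057694042933689179553 / 69120000000000000000000000000000000000000000000000000000000000000) by norm_num)
      (show (0 : ℝ) ≤ (429050275067483276199834229702108312380950265949363537579 / 230400000000000000000000000000000000000000000000000000000000) by norm_num)
      (show (0 : ℝ) ≤ (68318447525082405832980590936136751699154736850928703517640149 / 61440000000000000000000000000000000000000000000000000000000000000) by norm_num)
      (show (0 : ℝ) ≤ (134920670762858803114525719223302676735773549176386271375479553 / 552960000000000000000000000000000000000000000000000000000000000000) by norm_num)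
    refine key.trans_eq ?_
    unfold Tf Af
    ring

theorem r_enc_4 : ((23090884111 / 5000000000) : ℝ) ≤ exp (153 / 100) ∧ exp (153 / 100) ≤ (46181768223 / 10000000000) := by
  have hx : |((153 / 200) : ℝ)| ≤ 1 := by norm_num [abs_le]
  have h := Real.exp_bound hx (n := 16) (by norm_num)
  rw [abs_le] at h
  obtain ⟨h1, h2⟩ := h
  simp only [Finset.sum_range_succ, Finset.sum_range_zero, Nat.factorial] at h1 h2
  norm_num [abs_of_neg, abs_of_pos] at h1 h2
  have l1 : ((214899437465521 / 100000000000000) : ℝ) ≤ exp (153 / 200) := by norm_num; linarith
  have u1 : exp (153 / 200) ≤ (214899437465523 / 100000000000000) := by norm_num; linarith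
  have e : exp (153 / 100) = exp (153 / 200) ^ 2 := by
    rw [← exp_nat_mul]; norm_num
  rw [e]
  constructor
  · refine le_trans ?_ (pow_le_pow_left₀ (by norm_num) l1 2)
    norm_num
  · refine (pow_le_pow_left₀ (exp_pos _).le u1 2).trans ?_
    norm_num

theorem r_piece_4 {s : ℝ} (h1 : (5 / 2) ≤ s) (h2 : s ≤ 5) (z : ℝ) :
    Af s + (-303 / 10000) * z + Tf s * (z * (s - z)) ≤ (1151 / 1000) * exp (1 * s + (-269 / 400) * z) := by
  refine Pool.Agent.H26.RM.main (Tf := Tf) (Af := Af) (B := (-303 / 10000)) Tf_pos (by norm_num) (sc := (15 / 4)) (H := (5 / 4)) (z0c := (888 / 269)) (b := (903 / 1000))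
    (rc := (153 / 100)) (κ := (157093 / 400000)) (lo := (23090884111 / 5000000000)) (hi := (46181768223 / 10000000000))
    (by norm_num) r_enc_4.1 r_enc_4.2 (by norm_num) (by norm_num) (by norm_num) (by norm_num) ?_ ?_
    (by linarith) (by linarith) z
  · intro h a1 a2
    have hu : 0 ≤ (5 / 4) - h := by linarith
    have hv : 0 ≤ (5 / 4) + h := by linarith
    have key := bern3 hu hv
      (show (0 : ℝ) ≤ (2169453507 / 5000000000) by norm_num)
      (show (0 : ℝ) ≤ (821427259 / 500000000) by norm_num)
      (show (0 : ℝ) ≤ (10332163151 / 5000000000) by norm_num)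
      (show (0 : ℝ) ≤ (33742179 / 39062500) by norm_num)
    refine key.trans_eq ?_
    unfold Tf
    ring
  · intro h a1 a2
    have hu : 0 ≤ (5 / 4) - h := by linarith
    have hv : 0 ≤ (5 / 4) + h := by linarith
    have key := bern9 hu hv
      (show (0 : ℝ) ≤ (39457534473702787595917784013184441962008414956098977691252815411 / 1474560000000000000000000000000000000000000000000000000000000000000000) by norm_num)
      (show (0 : ℝ) ≤ (2185104284674061290223730040910179374852936433720039118491745751301 / 4423680000000000000000000000000000000000000000000000000000000000000000) by norm_num)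
      (show (0 : ℝ) ≤ (182495789043792179717296206359203308904709852831513346211484629 / 55296000000000000000000000000000000000000000000000000000000000000) by norm_num)
      (show (0 : ℝ) ≤ (251839755488692399457568006031294500049601794584097710153028763379 / 20480000000000000000000000000000000000000000000000000000000000000000) by norm_num)
      (show (0 : ℝ) ≤ (63218441577622218121153943412231710440494465526918856770945569181301 / 2211840000000000000000000000000000000000000000000000000000000000000000) by norm_num)
      (show (0 : ℝ) ≤ (95701793723108304808545723948796114859226585124912331074397193411301 / 2211840000000000000000000000000000000000000000000000000000000000000000) by norm_num)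
      (show (0 : ℝ) ≤ (7906021485563756514241218861376626730785743695949500131622349105411 / 184320000000000000000000000000000000000000000000000000000000000000000) by norm_num)
      (show (0 : ℝ) ≤ (2973675944658509953127771521851805204979714314694882369299540117 / 110592000000000000000000000000000000000000000000000000000000000000) by norm_num)
      (show (0 : ℝ) ≤ (42688396849258851330988892351340076099042824871345093092239954341301 / 4423680000000000000000000000000000000000000000000000000000000000000000) by norm_num)
      (show (0 : ℝ) ≤ (739314397393127724302334387336945697007061666570524904957561095137 / 491520000000000000000000000000000000000000000000000000000000000000000) by norm_num)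
    refine key.trans_eq ?_
    unfold Tf Af
    ring

theorem r_enc_5 : ((304562349 / 25000000) : ℝ) ≤ exp (5 / 2) ∧ exp (5 / 2) ≤ (12182493961 / 1000000000) := by
  have hx : |((5 / 8) : ℝ)| ≤ 1 := by norm_num [abs_le]
  have h := Real.exp_bound hx (n := 16) (by norm_num)
  rw [abs_le] at h
  obtain ⟨h1, h2⟩ := h
  simp only [Finset.sum_range_succ, Finset.sum_range_zero, Nat.factorial] at h1 h2
  norm_num [abs_of_neg, abs_of_pos] at h1 h2
  have l1 : ((93412297871611 / 50000000000000) : ℝ) ≤ exp (5 / 8) := by norm_num; linarith
  have u1 : exp (5 / 8) ≤ (186824595743223 / 100000000000000) := by norm_num; linarith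
  have e : exp (5 / 2) = exp (5 / 8) ^ 4 := by
    rw [← exp_nat_mul]; norm_num
  rw [e]
  constructor
  · refine le_trans ?_ (pow_le_pow_left₀ (by norm_num) l1 4)
    norm_num
  · refine (pow_le_pow_left₀ (exp_pos _).le u1 4).trans ?_
    norm_num

theorem r_piece_5 {s : ℝ} (h1 : 5 ≤ s) (h2 : s ≤ 8) (z : ℝ) :
    Af s + (-303 / 10000) * z + Tf s * (z * (s - z)) ≤ (1151 / 1000) * exp (1 * s + (-269 / 400) * z) := by
  refine Pool.Agent.H26.RM.main (Tf := Tf) (Af := Af) (B := (-303 / 10000)) Tf_pos (by norm_num) (sc := (13 / 2)) (H := (3 / 2)) (z0c := (1600 / 269)) (b := (128 / 125))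
    (rc := (5 / 2)) (κ := (973 / 3125)) (lo := (304562349 / 25000000)) (hi := (12182493961 / 1000000000))
    (by norm_num) r_enc_5.1 r_enc_5.2 (by norm_num) (by norm_num) (by norm_num) (by norm_num) ?_ ?_
    (by linarith) (by linarith) z
  · intro h a1 a2
    have hu : 0 ≤ (3 / 2) - h := by linarith
    have hv : 0 ≤ (3 / 2) + h := by linarith
    have key := bern3 hu hv
      (show (0 : ℝ) ≤ (223772329 / 450000000) by norm_num)
      (show (0 : ℝ) ≤ (29817743 / 15625000) by norm_num)
      (show (0 : ℝ) ≤ (2277420217 / 937500000) by norm_num)
      (show (0 : ℝ) ≤ (11547183961 / 11250000000) by norm_num)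
    refine key.trans_eq ?_
    unfold Tf
    ring
  · intro h a1 a2
    have hu : 0 ≤ (3 / 2) - h := by linarith
    have hv : 0 ≤ (3 / 2) + h := by linarith
    have key := bern9 hu hv
      (show (0 : ℝ) ≤ (135436370539211172498130436243446148681813186702843099 / 469279289245605468750000000000000000000000000000000000000) by norm_num)
      (show (0 : ℝ) ≤ (61746360478596805856418707924893049476650413364797989 / 17380714416503906250000000000000000000000000000000000000) by norm_num)
      (show (0 : ℝ) ≤ (9927180912240275156442438563719103415059649284639 / 521421432495117187500000000000000000000000000000000) by norm_num)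
      (show (0 : ℝ) ≤ (1154935458033192827131682163132983067030403827071056033 / 19553303718566894531250000000000000000000000000000000000) by norm_num)
      (show (0 : ℝ) ≤ (1016735268162902737625542356737152779459196879366622989 / 8690357208251953125000000000000000000000000000000000000) by norm_num)
      (show (0 : ℝ) ≤ (4001382609375500596441326938999772250196719987862593967 / 26071071624755859375000000000000000000000000000000000000) by norm_num)
      (show (0 : ℝ) ≤ (2608770117771295923607203395751418222386495265211168533 / 19553303718566894531250000000000000000000000000000000000) by norm_num)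
      (show (0 : ℝ) ≤ (3219175801857306785062033566828348888936848926603 / 43451786041259765625000000000000000000000000000000) by norm_num)
      (show (0 : ℝ) ≤ (1241243678848727230690660321137481148272795330721818967 / 52142143249511718750000000000000000000000000000000000000) by norm_num)
      (show (0 : ℝ) ≤ (1577611283331928299443596164069401183766145430366018099 / 469279289245605468750000000000000000000000000000000000000) by norm_num)
    refine key.trans_eq ?_
    unfold Tf Af
    ring

theorem r_enc_6 : ((34813317487 / 1000000000) : ℝ) ≤ exp (71 / 20) ∧ exp (71 / 20) ≤ (2175832343 / 62500000) := by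
  have hx : |((71 / 80) : ℝ)| ≤ 1 := by norm_num [abs_le]
  have h := Real.exp_bound hx (n := 16) (by norm_num)
  rw [abs_le] at h
  obtain ⟨h1, h2⟩ := h
  simp only [Finset.sum_range_succ, Finset.sum_range_zero, Nat.factorial] at h1 h2
  norm_num [abs_of_neg, abs_of_pos] at h1 h2
  have l1 : ((242904943060427 / 100000000000000) : ℝ) ≤ exp (71 / 80) := by norm_num; linarith
  have u1 : exp (71 / 80) ≤ (242904943060429 / 100000000000000) := by norm_num; linarith
  have e : exp (71 / 20) = exp (71 / 80) ^ 4 := by
    rw [← exp_nat_mul]; norm_num
  rw [e]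
  constructor
  · refine le_trans ?_ (pow_le_pow_left₀ (by norm_num) l1 4)
    norm_num
  · refine (pow_le_pow_left₀ (exp_pos _).le u1 4).trans ?_
    norm_num

theorem r_piece_6 {s : ℝ} (h1 : 8 ≤ s) (h2 : s ≤ 13) (z : ℝ) :
    Af s + (-303 / 10000) * z + Tf s * (z * (s - z)) ≤ (1151 / 1000) * exp (1 * s + (-269 / 400) * z) := by
  refine Pool.Agent.H26.RM.main (Tf := Tf) (Af := Af) (B := (-303 / 10000)) Tf_pos (by norm_num) (sc := (21 / 2)) (H := (5 / 2)) (z0c := (2780 / 269)) (b := (1203 / 1000))
    (rc := (71 / 20)) (κ := (76393 / 400000)) (lo := (34813317487 / 1000000000)) (hi := (2175832343 / 62500000))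
    (by norm_num) r_enc_6.1 r_enc_6.2 (by norm_num) (by norm_num) (by norm_num) (by norm_num) ?_ ?_
    (by linarith) (by linarith) z
  · intro h a1 a2
    have hu : 0 ≤ (5 / 2) - h := by linarith
    have hv : 0 ≤ (5 / 2) + h := by linarith
    have key := bern3 hu hv
      (show (0 : ℝ) ≤ (53679796689 / 250000000000) by norm_num)
      (show (0 : ℝ) ≤ (57144618361 / 62500000000) by norm_num)
      (show (0 : ℝ) ≤ (320638270411 / 250000000000) by norm_num)
      (show (0 : ℝ) ≤ (9281284741 / 15625000000) by norm_num)
    refine key.trans_eq ?_
    unfold Tf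
    ring
  · intro h a1 a2
    have hu : 0 ≤ (5 / 2) - h := by linarith
    have hv : 0 ≤ (5 / 2) + h := by linarith
    have key := bern9 hu hv
      (show (0 : ℝ) ≤ (679852315851138739645076046477546453362753393593045777964237093 / 22118400000000000000000000000000000000000000000000000000000000000000) by norm_num)
      (show (0 : ℝ) ≤ (4435978049705276816949056599336107070445996250178213433387405923 / 11059200000000000000000000000000000000000000000000000000000000000000) by norm_num)
      (show (0 : ℝ) ≤ (39479800034793626547925299138299356100687986093799631613027213 / 17694720000000000000000000000000000000000000000000000000000000000) by norm_num)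
      (show (0 : ℝ) ≤ (26110930373737457898788129555020634133291707436959672079451266749 / 3686400000000000000000000000000000000000000000000000000000000000000) by norm_num)
      (show (0 : ℝ) ≤ (78697217199892801432333285853808910853220453295132679085375319673 / 5529600000000000000000000000000000000000000000000000000000000000000) by norm_num)
      (show (0 : ℝ) ≤ (208456750502306590141603336752526893075096407298002342919104163721 / 11059200000000000000000000000000000000000000000000000000000000000000) by norm_num)
      (show (0 : ℝ) ≤ (60862751420238834817518880161121808870170894405427515123279324249 / 3686400000000000000000000000000000000000000000000000000000000000000) by norm_num)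
      (show (0 : ℝ) ≤ (163523740315033558812671012351401070880051257401783225654179037 / 17694720000000000000000000000000000000000000000000000000000000000) by norm_num)
      (show (0 : ℝ) ≤ (66391324977102648465480297242176214667607158314690540175074522471 / 22118400000000000000000000000000000000000000000000000000000000000000) by norm_num)
      (show (0 : ℝ) ≤ (297806884604195234375671117914616344416368830969465318752670749 / 691200000000000000000000000000000000000000000000000000000000000000) by norm_num)
    refine key.trans_eq ?_
    unfold Tf Af
    ring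

theorem r_enc_7 : ((5664778117 / 50000000) : ℝ) ≤ exp (473 / 100) ∧ exp (473 / 100) ≤ (2265911247 / 20000000) := by
  have hx : |((473 / 800) : ℝ)| ≤ 1 := by norm_num [abs_le]
  have h := Real.exp_bound hx (n := 16) (by norm_num)
  rw [abs_le] at h
  obtain ⟨h1, h2⟩ := h
  simp only [Finset.sum_range_succ, Finset.sum_range_zero, Nat.factorial] at h1 h2
  norm_num [abs_of_neg, abs_of_pos] at h1 h2
  have l1 : ((180624481087047 / 100000000000000) : ℝ) ≤ exp (473 / 800) := by norm_num; linarith
  have u1 : exp (473 / 800) ≤ (22578060135881 / 12500000000000) := by norm_num; linarith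
  have e : exp (473 / 100) = exp (473 / 800) ^ 8 := by
    rw [← exp_nat_mul]; norm_num
  rw [e]
  constructor
  · refine le_trans ?_ (pow_le_pow_left₀ (by norm_num) l1 8)
    norm_num
  · refine (pow_le_pow_left₀ (exp_pos _).le u1 8).trans ?_
    norm_num

theorem r_piece_7 {s : ℝ} (h1 : 13 ≤ s) (h2 : s ≤ 21) (z : ℝ) :
    Af s + (-303 / 10000) * z + Tf s * (z * (s - z)) ≤ (1151 / 1000) * exp (1 * s + (-269 / 400) * z) := by
  refine Pool.Agent.H26.RM.main (Tf := Tf) (Af := Af) (B := (-303 / 10000)) Tf_pos (by norm_num) (sc := 17) (H := 4) (z0c := (4908 / 269)) (b := (1311 / 1000))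
    (rc := (473 / 100)) (κ := (47341 / 400000)) (lo := (5664778117 / 50000000)) (hi := (2265911247 / 20000000))
    (by norm_num) r_enc_7.1 r_enc_7.2 (by norm_num) (by norm_num) (by norm_num) (by norm_num) ?_ ?_
    (by linarith) (by linarith) z
  · intro h a1 a2
    have hu : 0 ≤ 4 - h := by linarith
    have hv : 0 ≤ 4 + h := by linarith
    have key := bern3 hu hv
      (show (0 : ℝ) ≤ (89018209203 / 640000000000) by norm_num)
      (show (0 : ℝ) ≤ (398994927689 / 640000000000) by norm_num)
      (show (0 : ℝ) ≤ (117889580981 / 128000000000) by norm_num)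
      (show (0 : ℝ) ≤ (287625097203 / 640000000000) by norm_num)
    refine key.trans_eq ?_
    unfold Tf
    ring
  · intro h a1 a2
    have hu : 0 ≤ 4 - h := by linarith
    have hv : 0 ≤ 4 + h := by linarith
    have key := bern9 hu hv
      (show (0 : ℝ) ≤ (1052146234032556084563367897010489339641334417989790698279379 / 193273528320000000000000000000000000000000000000000000000000000000) by norm_num)
      (show (0 : ℝ) ≤ (42047185173861277134842675429178755580564552530773174102765589 / 579820584960000000000000000000000000000000000000000000000000000000) by norm_num)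
      (show (0 : ℝ) ≤ (7412712699779803591592309842198368794218987140421592853443 / 18119393280000000000000000000000000000000000000000000000000000) by norm_num)
      (show (0 : ℝ) ≤ (10549158520827780954044135395719044763266084744470984516771793 / 8053063680000000000000000000000000000000000000000000000000000000) by norm_num)
      (show (0 : ℝ) ≤ (766674610890956583140542577663257954476032608432924802753805589 / 289910292480000000000000000000000000000000000000000000000000000000) by norm_num)
      (show (0 : ℝ) ≤ (1017367449385657935468178541747459566681062936767500013674525589 / 289910292480000000000000000000000000000000000000000000000000000000) by norm_num)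
      (show (0 : ℝ) ≤ (74256256474117158707801916927570732186442426494765713741619379 / 24159191040000000000000000000000000000000000000000000000000000000) by norm_num)
      (show (0 : ℝ) ≤ (31135322573545776146964101785776006547346981628495388922317 / 18119393280000000000000000000000000000000000000000000000000000) by norm_num)
      (show (0 : ℝ) ≤ (323167420842774757686941960577044451286274711086103730548541589 / 579820584960000000000000000000000000000000000000000000000000000000) by norm_num)
      (show (0 : ℝ) ≤ (15457977801501394333708365785073825480052768215557552855479379 / 193273528320000000000000000000000000000000000000000000000000000000) by norm_num)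
    refine key.trans_eq ?_
    unfold Tf Af
    ring

theorem r_enc_8 : ((10602825751 / 25000000) : ℝ) ≤ exp (121 / 20) ∧ exp (121 / 20) ≤ (8482260601 / 20000000) := by
  have hx : |((121 / 160) : ℝ)| ≤ 1 := by norm_num [abs_le]
  have h := Real.exp_bound hx (n := 16) (by norm_num)
  rw [abs_le] at h
  obtain ⟨h1, h2⟩ := h
  simp only [Finset.sum_range_succ, Finset.sum_range_zero, Nat.factorial] at h1 h2
  norm_num [abs_of_neg, abs_of_pos] at h1 h2
  have l1 : ((213027270064879 / 100000000000000) : ℝ) ≤ exp (121 / 160) := by norm_num; linarith
  have u1 : exp (121 / 160) ≤ (2662840875811 / 1250000000000) := by norm_num; linarith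
  have e : exp (121 / 20) = exp (121 / 160) ^ 8 := by
    rw [← exp_nat_mul]; norm_num
  rw [e]
  constructor
  · refine le_trans ?_ (pow_le_pow_left₀ (by norm_num) l1 8)
    norm_num
  · refine (pow_le_pow_left₀ (exp_pos _).le u1 8).trans ?_
    norm_num

theorem r_piece_8 {s : ℝ} (h1 : 21 ≤ s) (h2 : s ≤ 35) (z : ℝ) :
    Af s + (-303 / 10000) * z + Tf s * (z * (s - z)) ≤ (1151 / 1000) * exp (1 * s + (-269 / 400) * z) := by
  refine Pool.Agent.H26.RM.main (Tf := Tf) (Af := Af) (B := (-303 / 10000)) Tf_pos (by norm_num) (sc := 28) (H := 7) (z0c := (8780 / 269)) (b := (1391 / 1000))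
    (rc := (121 / 20)) (κ := (25821 / 400000)) (lo := (10602825751 / 25000000)) (hi := (8482260601 / 20000000))
    (by norm_num) r_enc_8.1 r_enc_8.2 (by norm_num) (by norm_num) (by norm_num) (by norm_num) ?_ ?_
    (by linarith) (by linarith) z
  · intro h a1 a2
    have hu : 0 ≤ 7 - h := by linarith
    have hv : 0 ≤ 7 + h := by linarith
    have key := bern3 hu hv
      (show (0 : ℝ) ≤ (275965310331 / 3430000000000) by norm_num)
      (show (0 : ℝ) ≤ (2636773732673 / 6860000000000) by norm_num)
      (show (0 : ℝ) ≤ (416059589849 / 686000000000) by norm_num)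
      (show (0 : ℝ) ≤ (86870957847 / 274400000000) by norm_num)
    refine key.trans_eq ?_
    unfold Tf
    ring
  · intro h a1 a2
    have hu : 0 ≤ 7 - h := by linarith
    have hv : 0 ≤ 7 + h := by linarith
    have key := bern9 hu hv
      (show (0 : ℝ) ≤ (683113447230039203744715041459843355114541092657925295797438253 / 1934346231480320000000000000000000000000000000000000000000000000000000) by norm_num)
      (show (0 : ℝ) ≤ (10756478508160589613604384522166488899675462424344269311256501241 / 1934346231480320000000000000000000000000000000000000000000000000000000) by norm_num)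
      (show (0 : ℝ) ≤ (2087975798016300008120210725974095894321678317756065270836343 / 60448319733760000000000000000000000000000000000000000000000000000) by norm_num)
      (show (0 : ℝ) ≤ (4061101991979141575933380151738299877263351572413789996483623179 / 34541896990720000000000000000000000000000000000000000000000000000000) by norm_num)
      (show (0 : ℝ) ≤ (34146764597295889976792460946595708747625623847575278772508030463 / 138167587962880000000000000000000000000000000000000000000000000000000) by norm_num)
      (show (0 : ℝ) ≤ (46548399189279448689887449901955807060921021937598352063075566463 / 138167587962880000000000000000000000000000000000000000000000000000000) by norm_num)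
      (show (0 : ℝ) ≤ (1481603131584150237426366019362712579406593633659312629186053597 / 4934556712960000000000000000000000000000000000000000000000000000000) by norm_num)
      (show (0 : ℝ) ≤ (10254007402555770383032703184838229555855001244401982381736667 / 60448319733760000000000000000000000000000000000000000000000000000) by norm_num)
      (show (0 : ℝ) ≤ (107060228120849295990293840996856629458978268602076704400193253241 / 1934346231480320000000000000000000000000000000000000000000000000000000) by norm_num)
      (show (0 : ℝ) ≤ (15416133831829830762037594058999038306792548449809953968230222253 / 1934346231480320000000000000000000000000000000000000000000000000000000) by norm_num)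
    refine key.trans_eq ?_
    unfold Tf Af
    ring

theorem r_enc_9 : ((3249611507 / 2500000) : ℝ) ≤ exp (717 / 100) ∧ exp (717 / 100) ≤ (12998446029 / 10000000) := by
  have hx : |((717 / 800) : ℝ)| ≤ 1 := by norm_num [abs_le]
  have h := Real.exp_bound hx (n := 16) (by norm_num)
  rw [abs_le] at h
  obtain ⟨h1, h2⟩ := h
  simp only [Finset.sum_range_succ, Finset.sum_range_zero, Nat.factorial] at h1 h2
  norm_num [abs_of_neg, abs_of_pos] at h1 h2
  have l1 : ((245039687197711 / 100000000000000) : ℝ) ≤ exp (717 / 800) := by norm_num; linarith
  have u1 : exp (717 / 800) ≤ (122519843598857 / 50000000000000) := by norm_num; linarith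
  have e : exp (717 / 100) = exp (717 / 800) ^ 8 := by
    rw [← exp_nat_mul]; norm_num
  rw [e]
  constructor
  · refine le_trans ?_ (pow_le_pow_left₀ (by norm_num) l1 8)
    norm_num
  · refine (pow_le_pow_left₀ (exp_pos _).le u1 8).trans ?_
    norm_num

theorem r_piece_9 {s : ℝ} (h1 : 35 ≤ s) (h2 : s ≤ 49) (z : ℝ) :
    Af s + (-303 / 10000) * z + Tf s * (z * (s - z)) ≤ (1151 / 1000) * exp (1 * s + (-269 / 400) * z) := by
  refine Pool.Agent.H26.RM.main (Tf := Tf) (Af := Af) (B := (-303 / 10000)) Tf_pos (by norm_num) (sc := 42) (H := 7) (z0c := (13932 / 269)) (b := (1387 / 1000))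
    (rc := (717 / 100)) (κ := (26897 / 400000)) (lo := (3249611507 / 2500000)) (hi := (12998446029 / 10000000))
    (by norm_num) r_enc_9.1 r_enc_9.2 (by norm_num) (by norm_num) (by norm_num) (by norm_num) ?_ ?_
    (by linarith) (by linarith) z
  · intro h a1 a2
    have hu : 0 ≤ 7 - h := by linarith
    have hv : 0 ≤ 7 + h := by linarith
    have key := bern3 hu hv
      (show (0 : ℝ) ≤ (85903605321 / 274400000000) by norm_num)
      (show (0 : ℝ) ≤ (54863148603 / 42875000000) by norm_num)
      (show (0 : ℝ) ≤ (11939261855839 / 6860000000000) by norm_num)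
      (show (0 : ℝ) ≤ (337771143791 / 428750000000) by norm_num)
    refine key.trans_eq ?_
    unfold Tf
    ring
  · intro h a1 a2
    have hu : 0 ≤ 7 - h := by linarith
    have hv : 0 ≤ 7 + h := by linarith
    have key := bern9 hu hv
      (show (0 : ℝ) ≤ (253515558097831281607251676787050986247892097130307593681940293651 / 30465953145815040000000000000000000000000000000000000000000000000000000) by norm_num)
      (show (0 : ℝ) ≤ (2847786577266684192654641370891970444211489677202156246529607719047 / 30465953145815040000000000000000000000000000000000000000000000000000000) by norm_num)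
      (show (0 : ℝ) ≤ (528935905122149944164356787350821499355594211016208757503708667 / 1142473242968064000000000000000000000000000000000000000000000000000) by norm_num)
      (show (0 : ℝ) ≤ (2175521767059071681415507137558275586833192496274793186932197327279 / 1632104632811520000000000000000000000000000000000000000000000000000000) by norm_num)
      (show (0 : ℝ) ≤ (5350008860341807580826590822751996443277508974676222188223435582721 / 2176139510415360000000000000000000000000000000000000000000000000000000) by norm_num)
      (show (0 : ℝ) ≤ (19665451191078398264429335374577643157102151752900036411018389508163 / 6528418531246080000000000000000000000000000000000000000000000000000000) by norm_num)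
      (show (0 : ℝ) ≤ (4002564423707647618459643692325449713303998947705302652318909247279 / 1632104632811520000000000000000000000000000000000000000000000000000000) by norm_num)
      (show (0 : ℝ) ≤ (162351780074757753601324025671660876821729820467752003299475927 / 126941471440896000000000000000000000000000000000000000000000000000) by norm_num)
      (show (0 : ℝ) ≤ (35392260509902326292290326376980205990363176674760101157808498077141 / 91397859437445120000000000000000000000000000000000000000000000000000000) by norm_num)
      (show (0 : ℝ) ≤ (4729197030086457800707181410126965073397448044277155687933781320953 / 91397859437445120000000000000000000000000000000000000000000000000000000) by norm_num)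
    refine key.trans_eq ?_
    unfold Tf Af
    ring

theorem r_enc_10 : ((10295250099 / 5000000) : ℝ) ≤ exp (763 / 100) ∧ exp (763 / 100) ≤ (20590500199 / 10000000) := by
  have hx : |((763 / 800) : ℝ)| ≤ 1 := by norm_num [abs_le]
  have h := Real.exp_bound hx (n := 16) (by norm_num)
  rw [abs_le] at h
  obtain ⟨h1, h2⟩ := h
  simp only [Finset.sum_range_succ, Finset.sum_range_zero, Nat.factorial] at h1 h2
  norm_num [abs_of_neg, abs_of_pos] at h1 h2
  have l1 : ((32442803425707 / 12500000000000) : ℝ) ≤ exp (763 / 800) := by norm_num; linarith
  have u1 : exp (763 / 800) ≤ (259542427405661 / 100000000000000) := by norm_num; linarith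
  have e : exp (763 / 100) = exp (763 / 800) ^ 8 := by
    rw [← exp_nat_mul]; norm_num
  rw [e]
  constructor
  · refine le_trans ?_ (pow_le_pow_left₀ (by norm_num) l1 8)
    norm_num
  · refine (pow_le_pow_left₀ (exp_pos _).le u1 8).trans ?_
    norm_num

theorem r_piece_10 {s : ℝ} (h1 : 49 ≤ s) (h2 : s ≤ 50) (z : ℝ) :
    Af s + (-303 / 10000) * z + Tf s * (z * (s - z)) ≤ (1151 / 1000) * exp (1 * s + (-269 / 400) * z) := by
  refine Pool.Agent.H26.RM.main (Tf := Tf) (Af := Af) (B := (-303 / 10000)) Tf_pos (by norm_num) (sc := (99 / 2)) (H := (1 / 2)) (z0c := (16748 / 269)) (b := (701 / 500))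
    (rc := (763 / 100)) (κ := (11431 / 200000)) (lo := (10295250099 / 5000000)) (hi := (20590500199 / 10000000))
    (by norm_num) r_enc_10.1 r_enc_10.2 (by norm_num) (by norm_num) (by norm_num) (by norm_num) ?_ ?_
    (by linarith) (by linarith) z
  · intro h a1 a2
    have hu : 0 ≤ (1 / 2) - h := by linarith
    have hv : 0 ≤ (1 / 2) + h := by linarith
    have key := bern3 hu hv
      (show (0 : ℝ) ≤ (1353134675179 / 625000000) by norm_num)
      (show (0 : ℝ) ≤ (33090529232573 / 5000000000) by norm_num)
      (show (0 : ℝ) ≤ (421466559049 / 62500000) by norm_num)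
      (show (0 : ℝ) ≤ (458077749723 / 200000000) by norm_num)
    refine key.trans_eq ?_
    unfold Tf
    ring
  · intro h a1 a2
    have hu : 0 ≤ (1 / 2) - h := by linarith
    have hv : 0 ≤ (1 / 2) + h := by linarith
    have key := bern9 hu hv
      (show (0 : ℝ) ≤ (4748169469621384415608691072598805348541796511605557319763389044513 / 4423680000000000000000000000000000000000000000000000000000000) by norm_num)
      (show (0 : ℝ) ≤ (14419039099516666865747496760645704150397159799795784744866843785487 / 1474560000000000000000000000000000000000000000000000000000000) by norm_num)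
      (show (0 : ℝ) ≤ (2919102002255432039188852366921787212243406344734810969557876579 / 73728000000000000000000000000000000000000000000000000000) by norm_num)
      (show (0 : ℝ) ≤ (51708789427765674694360765424223307791725957735747759215121011342013 / 552960000000000000000000000000000000000000000000000000000000) by norm_num)
      (show (0 : ℝ) ≤ (34893477105214764124835805454226569452991704397055309512570840981829 / 245760000000000000000000000000000000000000000000000000000000) by norm_num)
      (show (0 : ℝ) ≤ (11773028794747211597859561254455359400954687846378817863109961483943 / 81920000000000000000000000000000000000000000000000000000000) by norm_num)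
      (show (0 : ℝ) ≤ (53624097210290469818721384389584341332952366781892638352104984552013 / 552960000000000000000000000000000000000000000000000000000000) by norm_num)
      (show (0 : ℝ) ≤ (3101524842409689015551395946471960117742818479227417835022645651 / 73728000000000000000000000000000000000000000000000000000) by norm_num)
      (show (0 : ℝ) ≤ (15696130995179410800815143241762892071201589756807375162948021295487 / 1474560000000000000000000000000000000000000000000000000000000) by norm_num)
      (show (0 : ℝ) ≤ (5295569985068878205117420537728260024658046388276318309939656954513 / 4423680000000000000000000000000000000000000000000000000000000) by norm_num)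
    refine key.trans_eq ?_
    unfold Tf Af
    ring

theorem r_central {s : ℝ} (h1 : -4 ≤ s) (h2 : s ≤ 50) (z : ℝ) :
    Af s + (-303 / 10000) * z + Tf s * (z * (s - z)) ≤ (1151 / 1000) * exp (1 * s + (-269 / 400) * z) := by
  by_cases g0 : s ≤ (-5 / 2)
  · exact r_piece_0 (by linarith) g0 z
  rw [not_le] at g0
  by_cases g1 : s ≤ (-1)
  · exact r_piece_1 (by linarith) g1 z
  rw [not_le] at g1
  by_cases g2 : s ≤ (1 / 2)
  · exact r_piece_2 (by linarith) g2 z
  rw [not_le] at g2
  by_cases g3 : s ≤ (5 / 2)
  · exact r_piece_3 (by linarith) g3 z
  rw [not_le] at g3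
  by_cases g4 : s ≤ 5
  · exact r_piece_4 (by linarith) g4 z
  rw [not_le] at g4
  by_cases g5 : s ≤ 8
  · exact r_piece_5 (by linarith) g5 z
  rw [not_le] at g5
  by_cases g6 : s ≤ 13
  · exact r_piece_6 (by linarith) g6 z
  rw [not_le] at g6
  by_cases g7 : s ≤ 21
  · exact r_piece_7 (by linarith) g7 z
  rw [not_le] at g7
  by_cases g8 : s ≤ 35
  · exact r_piece_8 (by linarith) g8 z
  rw [not_le] at g8
  by_cases g9 : s ≤ 49
  · exact r_piece_9 (by linarith) g9 z
  rw [not_le] at g9
  exact r_piece_10 (by linarith) (by linarith) z

theorem b_enc_0 : ((417401939 / 4000000000) : ℝ) ≤ exp (-113 / 50) ∧ exp (-113 / 50) ≤ (2608762119 / 25000000000) := by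
  have hx : |((-113 / 200) : ℝ)| ≤ 1 := by norm_num [abs_le]
  have h := Real.exp_bound hx (n := 16) (by norm_num)
  rw [abs_le] at h
  obtain ⟨h1, h2⟩ := h
  simp only [Finset.sum_range_succ, Finset.sum_range_zero, Nat.factorial] at h1 h2
  norm_num [abs_of_neg, abs_of_pos] at h1 h2
  have l1 : ((28418007337877 / 50000000000000) : ℝ) ≤ exp (-113 / 200) := by norm_num; linarith
  have u1 : exp (-113 / 200) ≤ (568360146757541 / 1000000000000000) := by norm_num; linarith
  have e : exp (-113 / 50) = exp (-113 / 200) ^ 4 := by
    rw [← exp_nat_mul]; norm_num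
  rw [e]
  constructor
  · refine le_trans ?_ (pow_le_pow_left₀ (by norm_num) l1 4)
    norm_num
  · refine (pow_le_pow_left₀ (exp_pos _).le u1 4).trans ?_
    norm_num

theorem b_piece_0 {s : ℝ} (h1 : (-4) ≤ s) (h2 : s ≤ (-5 / 2)) (z : ℝ) :
    Af s + (-303 / 10000) * z + Tf s * (z * (s - z)) ≤ (1191 / 1000) * exp ((8 / 25) * s + (17 / 25) * z) := by
  refine Pool.Agent.H26.RM.main (Tf := Tf) (Af := Af) (B := (-303 / 10000)) Tf_pos (by norm_num) (sc := (-13 / 4)) (H := (3 / 4)) (z0c := (-61 / 34)) (b := (58 / 125))
    (rc := (-113 / 50)) (κ := (1986 / 3125)) (lo := (417401939 / 4000000000)) (hi := (2608762119 / 25000000000))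
    (by norm_num) b_enc_0.1 b_enc_0.2 (by norm_num) (by norm_num) (by norm_num) (by norm_num) ?_ ?_
    (by linarith) (by linarith) z
  · intro h a1 a2
    have hu : 0 ≤ (3 / 4) - h := by linarith
    have hv : 0 ≤ (3 / 4) + h := by linarith
    have key := bern3 hu hv
      (show (0 : ℝ) ≤ (30722581 / 87890625) by norm_num)
      (show (0 : ℝ) ≤ (213599773 / 175781250) by norm_num)
      (show (0 : ℝ) ≤ (98709881 / 70312500) by norm_num)
      (show (0 : ℝ) ≤ (841961 / 1562500) by norm_num)
    refine key.trans_eq ?_
    unfold Tf
    ring
  · intro h a1 a2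
    have hu : 0 ≤ (3 / 4) - h := by linarith
    have hv : 0 ≤ (3 / 4) + h := by linarith
    have key := bern9 hu hv
      (show (0 : ℝ) ≤ (8309696203775294583821042109453527371904466881251487 / 745899342291522771120071411132812500000000000000000000) by norm_num)
      (show (0 : ℝ) ≤ (16888999319775731353322843098930590377930561170340291 / 186474835572880692780017852783203125000000000000000000) by norm_num)
      (show (0 : ℝ) ≤ (154681860189338663355491463814462978844611124130727 / 477375579066574573516845703125000000000000000000000) by norm_num)
      (show (0 : ℝ) ≤ (998387353611127900615264082460753573738785114688233167 / 1491798684583045542240142822265625000000000000000000000) by norm_num)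
      (show (0 : ℝ) ≤ (1311332037952680072804400762439949409400191436199416531 / 1491798684583045542240142822265625000000000000000000000) by norm_num)
      (show (0 : ℝ) ≤ (1135336715196864289832888299527278572484177412415216531 / 1491798684583045542240142822265625000000000000000000000) by norm_num)
      (show (0 : ℝ) ≤ (647678991806955100141008216660039540286615152419339417 / 1491798684583045542240142822265625000000000000000000000) by norm_num)
      (show (0 : ℝ) ≤ (75099627219510982925550620166968184077872527119273 / 477375579066574573516845703125000000000000000000000) by norm_num)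
      (show (0 : ℝ) ≤ (49001875232467555098038140778061400800369070335219203 / 1491798684583045542240142822265625000000000000000000000) by norm_num)
      (show (0 : ℝ) ≤ (4490700745628804201245468479689044514846980661099849 / 1491798684583045542240142822265625000000000000000000000) by norm_num)
    refine key.trans_eq ?_
    unfold Tf Af
    ring

theorem b_enc_1 : ((26447726129 / 100000000000) : ℝ) ≤ exp (-133 / 100) ∧ exp (-133 / 100) ≤ (2644772613 / 10000000000) := by
  have hx : |((-133 / 200) : ℝ)| ≤ 1 := by norm_num [abs_le]
  have h := Real.exp_bound hx (n := 16) (by norm_num)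
  rw [abs_le] at h
  obtain ⟨h1, h2⟩ := h
  simp only [Finset.sum_range_succ, Finset.sum_range_zero, Nat.factorial] at h1 h2
  norm_num [abs_of_neg, abs_of_pos] at h1 h2
  have l1 : ((514273527706631 / 1000000000000000) : ℝ) ≤ exp (-133 / 200) := by norm_num; linarith
  have u1 : exp (-133 / 200) ≤ (64284190963329 / 125000000000000) := by norm_num; linarith
  have e : exp (-133 / 100) = exp (-133 / 200) ^ 2 := by
    rw [← exp_nat_mul]; norm_num
  rw [e]
  constructor
  · refine le_trans ?_ (pow_le_pow_left₀ (by norm_num) l1 2)
    norm_num
  · refine (pow_le_pow_left₀ (exp_pos _).le u1 2).trans ?_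
    norm_num

theorem b_piece_1 {s : ℝ} (h1 : (-5 / 2) ≤ s) (h2 : s ≤ (-1)) (z : ℝ) :
    Af s + (-303 / 10000) * z + Tf s * (z * (s - z)) ≤ (1191 / 1000) * exp ((8 / 25) * s + (17 / 25) * z) := by
  refine Pool.Agent.H26.RM.main (Tf := Tf) (Af := Af) (B := (-303 / 10000)) Tf_pos (by norm_num) (sc := (-7 / 4)) (H := (3 / 4)) (z0c := (-77 / 68)) (b := (21 / 50))
    (rc := (-133 / 100)) (κ := (757 / 1250)) (lo := (26447726129 / 100000000000)) (hi := (2644772613 / 10000000000))
    (by norm_num) b_enc_1.1 b_enc_1.2 (by norm_num) (by norm_num) (by norm_num) (by norm_num) ?_ ?_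
    (by linarith) (by linarith) z
  · intro h a1 a2
    have hu : 0 ≤ (3 / 4) - h := by linarith
    have hv : 0 ≤ (3 / 4) + h := by linarith
    have key := bern3 hu hv
      (show (0 : ℝ) ≤ (1011119 / 1875000) by norm_num)
      (show (0 : ℝ) ≤ (13025023 / 7031250) by norm_num)
      (show (0 : ℝ) ≤ (297955723 / 140625000) by norm_num)
      (show (0 : ℝ) ≤ (28366973 / 35156250) by norm_num)
    refine key.trans_eq ?_
    unfold Tf
    ring
  · intro h a1 a2
    have hu : 0 ≤ (3 / 4) - h := by linarith
    have hv : 0 ≤ (3 / 4) + h := by linarith
    have key := bern9 hu hv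
      (show (0 : ℝ) ≤ (47082148142722336958882867418453639053738335368599 / 15642642974853515625000000000000000000000000000000000) by norm_num)
      (show (0 : ℝ) ≤ (667801151942464527545279680989330689400429560621531 / 31285285949707031250000000000000000000000000000000000) by norm_num)
      (show (0 : ℝ) ≤ (1634140145648407314976804431579150509411501593967 / 25028228759765625000000000000000000000000000000000) by norm_num)
      (show (0 : ℝ) ≤ (1760450781728808450870017156294305916157812204021917 / 15642642974853515625000000000000000000000000000000000) by norm_num)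
      (show (0 : ℝ) ≤ (1873066283004797904920372031931845939233280634725281 / 15642642974853515625000000000000000000000000000000000) by norm_num)
      (show (0 : ℝ) ≤ (158296652577069729451853341592572241634246689977457 / 1955330371856689453125000000000000000000000000000000) by norm_num)
      (show (0 : ℝ) ≤ (540106659822632455145510645724331793472410256636917 / 15642642974853515625000000000000000000000000000000000) by norm_num)
      (show (0 : ℝ) ≤ (223730404729928047909999420292960628595818177283 / 25028228759765625000000000000000000000000000000000) by norm_num)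
      (show (0 : ℝ) ≤ (5075793704436974228500757896309480167035824259957 / 3910660743713378906250000000000000000000000000000000) by norm_num)
      (show (0 : ℝ) ≤ (892850024562659232421477593674701590568076697191 / 10428428649902343750000000000000000000000000000000000) by norm_num)
    refine key.trans_eq ?_
    unfold Tf Af
    ring

theorem b_enc_2 : ((31881407581 / 50000000000) : ℝ) ≤ exp (-9 / 20) ∧ exp (-9 / 20) ≤ (63762815163 / 100000000000) := by
  have hx : |((-9 / 20) : ℝ)| ≤ 1 := by norm_num [abs_le]
  have h := Real.exp_bound hx (n := 16) (by norm_num)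
  rw [abs_le] at h
  obtain ⟨h1, h2⟩ := h
  simp only [Finset.sum_range_succ, Finset.sum_range_zero, Nat.factorial] at h1 h2
  norm_num [abs_of_neg, abs_of_pos] at h1 h2
  have l1 : ((637628151621773 / 1000000000000000) : ℝ) ≤ exp (-9 / 20) := by norm_num; linarith
  have u1 : exp (-9 / 20) ≤ (318814075810887 / 500000000000000) := by norm_num; linarith
  have e : exp (-9 / 20) = exp (-9 / 20) ^ 1 := by
    rw [← exp_nat_mul]; norm_num
  rw [e]
  constructor
  · refine le_trans ?_ (pow_le_pow_left₀ (by norm_num) l1 1)
    norm_num
  · refine (pow_le_pow_left₀ (exp_pos _).le u1 1).trans ?_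
    norm_num

theorem b_piece_2 {s : ℝ} (h1 : (-1) ≤ s) (h2 : s ≤ (1 / 2)) (z : ℝ) :
    Af s + (-303 / 10000) * z + Tf s * (z * (s - z)) ≤ (1191 / 1000) * exp ((8 / 25) * s + (17 / 25) * z) := by
  refine Pool.Agent.H26.RM.main (Tf := Tf) (Af := Af) (B := (-303 / 10000)) Tf_pos (by norm_num) (sc := (-1 / 4)) (H := (3 / 4)) (z0c := (-37 / 68)) (b := (89 / 250))
    (rc := (-9 / 20)) (κ := (3513 / 6250)) (lo := (31881407581 / 50000000000)) (hi := (63762815163 / 100000000000))
    (by norm_num) b_enc_2.1 b_enc_2.2 (by norm_num) (by norm_num) (by norm_num) (by norm_num) ?_ ?_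
    (by linarith) (by linarith) z
  · intro h a1 a2
    have hu : 0 ≤ (3 / 4) - h := by linarith
    have hv : 0 ≤ (3 / 4) + h := by linarith
    have key := bern3 hu hv
      (show (0 : ℝ) ≤ (141332743 / 175781250) by norm_num)
      (show (0 : ℝ) ≤ (1938550451 / 703125000) by norm_num)
      (show (0 : ℝ) ≤ (55383634 / 17578125) by norm_num)
      (show (0 : ℝ) ≤ (281244739 / 234375000) by norm_num)
    refine key.trans_eq ?_
    unfold Tf
    ring
  · intro h a1 a2
    have hu : 0 ≤ (3 / 4) - h := by linarith
    have hv : 0 ≤ (3 / 4) + h := by linarith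
    have key := bern9 hu hv
      (show (0 : ℝ) ≤ (1361902779962405168241983236996703378047062858704563331 / 16294419765472412109375000000000000000000000000000000000000) by norm_num)
      (show (0 : ℝ) ≤ (13044004381830126381828344848692773247212350661178905021 / 48883259296417236328125000000000000000000000000000000000000) by norm_num)
      (show (0 : ℝ) ≤ (675335478778594946057294002674943850569806924245201 / 977665185928344726562500000000000000000000000000000000) by norm_num)
      (show (0 : ℝ) ≤ (22949071410540339943138699678671772704738541479204008743 / 6110407412052154541015625000000000000000000000000000000000) by norm_num)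
      (show (0 : ℝ) ≤ (288848831679455247671306654420839666352580633695093855021 / 24441629648208618164062500000000000000000000000000000000000) by norm_num)
      (show (0 : ℝ) ≤ (471458269351704137387194586332961194589961784171315180021 / 24441629648208618164062500000000000000000000000000000000000) by norm_num)
      (show (0 : ℝ) ≤ (108158741215619942550822258579151659890840352650786208743 / 6110407412052154541015625000000000000000000000000000000000) by norm_num)
      (show (0 : ℝ) ≤ (9052098178861813842298535990311790606414531944168549 / 977665185928344726562500000000000000000000000000000000) by norm_num)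
      (show (0 : ℝ) ≤ (125293654964637964815210959765828767021025814680748880021 / 48883259296417236328125000000000000000000000000000000000000) by norm_num)
      (show (0 : ℝ) ≤ (13951368043841987495411627517462444098687713888531214993 / 48883259296417236328125000000000000000000000000000000000000) by norm_num)
    refine key.trans_eq ?_
    unfold Tf Af
    ring

theorem b_enc_3 : ((16160744021 / 10000000000) : ℝ) ≤ exp (12 / 25) ∧ exp (12 / 25) ≤ (8080372011 / 5000000000) := by
  have hx : |((12 / 25) : ℝ)| ≤ 1 := by norm_num [abs_le]
  have h := Real.exp_bound hx (n := 16) (by norm_num)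
  rw [abs_le] at h
  obtain ⟨h1, h2⟩ := h
  simp only [Finset.sum_range_succ, Finset.sum_range_zero, Nat.factorial] at h1 h2
  norm_num [abs_of_neg, abs_of_pos] at h1 h2
  have l1 : ((161607440219289 / 100000000000000) : ℝ) ≤ exp (12 / 25) := by norm_num; linarith
  have u1 : exp (12 / 25) ≤ (16160744021929 / 10000000000000) := by norm_num; linarith
  have e : exp (12 / 25) = exp (12 / 25) ^ 1 := by
    rw [← exp_nat_mul]; norm_num
  rw [e]
  constructor
  · refine le_trans ?_ (pow_le_pow_left₀ (by norm_num) l1 1)
    norm_num
  · refine (pow_le_pow_left₀ (exp_pos _).le u1 1).trans ?_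
    norm_num

theorem b_piece_3 {s : ℝ} (h1 : (1 / 2) ≤ s) (h2 : s ≤ (5 / 2)) (z : ℝ) :
    Af s + (-303 / 10000) * z + Tf s * (z * (s - z)) ≤ (1191 / 1000) * exp ((8 / 25) * s + (17 / 25) * z) := by
  refine Pool.Agent.H26.RM.main (Tf := Tf) (Af := Af) (B := (-303 / 10000)) Tf_pos (by norm_num) (sc := (3 / 2)) (H := 1) (z0c := 0) (b := (257 / 1000))
    (rc := (12 / 25)) (κ := (12369 / 25000)) (lo := (16160744021 / 10000000000)) (hi := (8080372011 / 5000000000))
    (by norm_num) b_enc_3.1 b_enc_3.2 (by norm_num) (by norm_num) (by norm_num) (by norm_num) ?_ ?_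
    (by linarith) (by linarith) z
  · intro h a1 a2
    have hu : 0 ≤ 1 - h := by linarith
    have hv : 0 ≤ 1 + h := by linarith
    have key := bern3 hu hv
      (show (0 : ℝ) ≤ (2505453129 / 5000000000) by norm_num)
      (show (0 : ℝ) ≤ (9024207041 / 5000000000) by norm_num)
      (show (0 : ℝ) ≤ (2165655171 / 1000000000) by norm_num)
      (show (0 : ℝ) ≤ (173152879 / 200000000) by norm_num)
    refine key.trans_eq ?_
    unfold Tf
    ring
  · intro h a1 a2
    have hu : 0 ≤ 1 - h := by linarith
    have hv : 0 ≤ 1 + h := by linarith
    have key := bern9 hu hv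
      (show (0 : ℝ) ≤ (173289071828784368663155998691698024385467302526101787 / 9765625000000000000000000000000000000000000000000000000000) by norm_num)
      (show (0 : ℝ) ≤ (1981264631341008557734234414238043217732000594172063389 / 9765625000000000000000000000000000000000000000000000000000) by norm_num)
      (show (0 : ℝ) ≤ (145804576401167333755713573537016928911936763339029 / 195312500000000000000000000000000000000000000000000000) by norm_num)
      (show (0 : ℝ) ≤ (1670287345955777743381819087020803091824482018541283037 / 1220703125000000000000000000000000000000000000000000000000) by norm_num)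
      (show (0 : ℝ) ≤ (6410602213412416792993916344570068348838822185206394639 / 4882812500000000000000000000000000000000000000000000000000) by norm_num)
      (show (0 : ℝ) ≤ (3760923204969818868446576199839353487612556884674038389 / 4882812500000000000000000000000000000000000000000000000000) by norm_num)
      (show (0 : ℝ) ≤ (1046623190607549706205490554228078309060669465343208037 / 1220703125000000000000000000000000000000000000000000000000) by norm_num)
      (show (0 : ℝ) ≤ (29301917459261395098557945181242154758931308132137 / 24414062500000000000000000000000000000000000000000000) by norm_num)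
      (show (0 : ℝ) ≤ (7724316022604807493924869550557783898031994861843994639 / 9765625000000000000000000000000000000000000000000000000000) by norm_num)
      (show (0 : ℝ) ≤ (1794122653911193000690615443354871630697205810814795537 / 9765625000000000000000000000000000000000000000000000000000) by norm_num)
    refine key.trans_eq ?_
    unfold Tf Af
    ring

theorem b_enc_4 : ((4437095519 / 1000000000) : ℝ) ≤ exp (149 / 100) ∧ exp (149 / 100) ≤ (44370955191 / 10000000000) := by
  have hx : |((149 / 200) : ℝ)| ≤ 1 := by norm_num [abs_le]
  have h := Real.exp_bound hx (n := 16) (by norm_num)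
  rw [abs_le] at h
  obtain ⟨h1, h2⟩ := h
  simp only [Finset.sum_range_succ, Finset.sum_range_zero, Nat.factorial] at h1 h2
  norm_num [abs_of_neg, abs_of_pos] at h1 h2
  have l1 : ((26330517937259 / 12500000000000) : ℝ) ≤ exp (149 / 200) := by norm_num; linarith
  have u1 : exp (149 / 200) ≤ (210644143498073 / 100000000000000) := by norm_num; linarith
  have e : exp (149 / 100) = exp (149 / 200) ^ 2 := by
    rw [← exp_nat_mul]; norm_num
  rw [e]
  constructor
  · refine le_trans ?_ (pow_le_pow_left₀ (by norm_num) l1 2)
    norm_num
  · refine (pow_le_pow_left₀ (exp_pos _).le u1 2).trans ?_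
    norm_num

theorem b_piece_4 {s : ℝ} (h1 : (5 / 2) ≤ s) (h2 : s ≤ 5) (z : ℝ) :
    Af s + (-303 / 10000) * z + Tf s * (z * (s - z)) ≤ (1191 / 1000) * exp ((8 / 25) * s + (17 / 25) * z) := by
  refine Pool.Agent.H26.RM.main (Tf := Tf) (Af := Af) (B := (-303 / 10000)) Tf_pos (by norm_num) (sc := (15 / 4)) (H := (5 / 4)) (z0c := (29 / 68)) (b := (101 / 1000))
    (rc := (149 / 100)) (κ := (9717 / 25000)) (lo := (4437095519 / 1000000000)) (hi := (44370955191 / 10000000000))
    (by norm_num) b_enc_4.1 b_enc_4.2 (by norm_num) (by norm_num) (by norm_num) (by norm_num) ?_ ?_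
    (by linarith) (by linarith) z
  · intro h a1 a2
    have hu : 0 ≤ (5 / 4) - h := by linarith
    have hv : 0 ≤ (5 / 4) + h := by linarith
    have key := bern3 hu hv
      (show (0 : ℝ) ≤ (136077643 / 312500000) by norm_num)
      (show (0 : ℝ) ≤ (51570819 / 31250000) by norm_num)
      (show (0 : ℝ) ≤ (649030199 / 312500000) by norm_num)
      (show (0 : ℝ) ≤ (8480634 / 9765625) by norm_num)
    refine key.trans_eq ?_
    unfold Tf
    ring
  · intro h a1 a2
    have hu : 0 ≤ (5 / 4) - h := by linarith
    have hv : 0 ≤ (5 / 4) + h := by linarith
    have key := bern9 hu hv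
      (show (0 : ℝ) ≤ (80879106878806140523668635556823372236178154448336823 / 4768371582031250000000000000000000000000000000000000000000) by norm_num)
      (show (0 : ℝ) ≤ (14092973050804740762271127231958857858904929747541918123 / 38146972656250000000000000000000000000000000000000000000000) by norm_num)
      (show (0 : ℝ) ≤ (19857130537627337927620477572106643625708581646819043 / 7629394531250000000000000000000000000000000000000000000) by norm_num)
      (show (0 : ℝ) ≤ (95504834132976857342698914281885789768242448927488208543 / 9536743164062500000000000000000000000000000000000000000000) by norm_num)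
      (show (0 : ℝ) ≤ (113515292277216734639235091183337931925969427128883648437 / 4768371582031250000000000000000000000000000000000000000000) by norm_num)
      (show (0 : ℝ) ≤ (699256195574707731987891968759511359954783724399085619373 / 19073486328125000000000000000000000000000000000000000000000) by norm_num)
      (show (0 : ℝ) ≤ (175733930495001474833445505785131418765050578306575525209 / 4768371582031250000000000000000000000000000000000000000000) by norm_num)
      (show (0 : ℝ) ≤ (356646989305039185107228961788499635712848763025952539 / 15258789062500000000000000000000000000000000000000000000) by norm_num)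
      (show (0 : ℝ) ≤ (5047835467490421939220281628167933052931750440084292207 / 596046447753906250000000000000000000000000000000000000000) by norm_num)
      (show (0 : ℝ) ≤ (50738625379664683262817610923055847854211513060702661459 / 38146972656250000000000000000000000000000000000000000000000) by norm_num)
    refine key.trans_eq ?_
    unfold Tf Af
    ring

theorem b_enc_5 : ((11704811539 / 1000000000) : ℝ) ≤ exp (123 / 50) ∧ exp (123 / 50) ≤ (585240577 / 50000000) := by
  have hx : |((123 / 200) : ℝ)| ≤ 1 := by norm_num [abs_le]
  have h := Real.exp_bound hx (n := 16) (by norm_num)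
  rw [abs_le] at h
  obtain ⟨h1, h2⟩ := h
  simp only [Finset.sum_range_succ, Finset.sum_range_zero, Nat.factorial] at h1 h2
  norm_num [abs_of_neg, abs_of_pos] at h1 h2
  have l1 : ((23120707494479 / 12500000000000) : ℝ) ≤ exp (123 / 200) := by norm_num; linarith
  have u1 : exp (123 / 200) ≤ (184965659955833 / 100000000000000) := by norm_num; linarith
  have e : exp (123 / 50) = exp (123 / 200) ^ 4 := by
    rw [← exp_nat_mul]; norm_num
  rw [e]
  constructor
  · refine le_trans ?_ (pow_le_pow_left₀ (by norm_num) l1 4)
    norm_num
  · refine (pow_le_pow_left₀ (exp_pos _).le u1 4).trans ?_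
    norm_num

theorem b_piece_5 {s : ℝ} (h1 : 5 ≤ s) (h2 : s ≤ 8) (z : ℝ) :
    Af s + (-303 / 10000) * z + Tf s * (z * (s - z)) ≤ (1191 / 1000) * exp ((8 / 25) * s + (17 / 25) * z) := by
  refine Pool.Agent.H26.RM.main (Tf := Tf) (Af := Af) (B := (-303 / 10000)) Tf_pos (by norm_num) (sc := (13 / 2)) (H := (3 / 2)) (z0c := (19 / 34)) (b := (-2 / 125))
    (rc := (123 / 50)) (κ := (966 / 3125)) (lo := (11704811539 / 1000000000)) (hi := (585240577 / 50000000))
    (by norm_num) b_enc_5.1 b_enc_5.2 (by norm_num) (by norm_num) (by norm_num) (by norm_num) ?_ ?_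
    (by linarith) (by linarith) z
  · intro h a1 a2
    have hu : 0 ≤ (3 / 2) - h := by linarith
    have hv : 0 ≤ (3 / 2) + h := by linarith
    have key := bern3 hu hv
      (show (0 : ℝ) ≤ (4669841 / 9375000) by norm_num)
      (show (0 : ℝ) ≤ (268783879 / 140625000) by norm_num)
      (show (0 : ℝ) ≤ (855181349 / 351562500) by norm_num)
      (show (0 : ℝ) ≤ (361222291 / 351562500) by norm_num)
    refine key.trans_eq ?_
    unfold Tf
    ring
  · intro h a1 a2
    have hu : 0 ≤ (3 / 2) - h := by linarith
    have hv : 0 ≤ (3 / 2) + h := by linarith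
    have key := bern9 hu hv
      (show (0 : ℝ) ≤ (6042029483556281799894552638062076311865252483 / 23868778953328728675842285156250000000000000000000) by norm_num)
      (show (0 : ℝ) ≤ (37570277392434306805898848737905452426734669713 / 11934389476664364337921142578125000000000000000000) by norm_num)
      (show (0 : ℝ) ≤ (1297630966043823349690347284545598852342056543 / 76380092650651931762695312500000000000000000000) by norm_num)
      (show (0 : ℝ) ≤ (2529969293407340653193226516656757660665315445353 / 47737557906657457351684570312500000000000000000000) by norm_num)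
      (show (0 : ℝ) ≤ (5033259449071890958295510325617296804974582259579 / 47737557906657457351684570312500000000000000000000) by norm_num)
      (show (0 : ℝ) ≤ (6626013019917978222652494898255719532225056498329 / 47737557906657457351684570312500000000000000000000) by norm_num)
      (show (0 : ℝ) ≤ (5776113141506482688786616962308786623301977192853 / 47737557906657457351684570312500000000000000000000) by norm_num)
      (show (0 : ℝ) ≤ (5143064505964387868054095347155757610548162947 / 76380092650651931762695312500000000000000000000) by norm_num)
      (show (0 : ℝ) ≤ (1034386574953478713095952393285720629815753423227 / 47737557906657457351684570312500000000000000000000) by norm_num)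
      (show (0 : ℝ) ≤ (48725375849617773349990874292938150168419605197 / 15912519302219152450561523437500000000000000000000) by norm_num)
    refine key.trans_eq ?_
    unfold Tf Af
    ring

theorem b_enc_6 : ((16557725979 / 500000000) : ℝ) ≤ exp (7 / 2) ∧ exp (7 / 2) ≤ (33115451959 / 1000000000) := by
  have hx : |((7 / 8) : ℝ)| ≤ 1 := by norm_num [abs_le]
  have h := Real.exp_bound hx (n := 16) (by norm_num)
  rw [abs_le] at h
  obtain ⟨h1, h2⟩ := h
  simp only [Finset.sum_range_succ, Finset.sum_range_zero, Nat.factorial] at h1 h2
  norm_num [abs_of_neg, abs_of_pos] at h1 h2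
  have l1 : ((59971882349177 / 25000000000000) : ℝ) ≤ exp (7 / 8) := by norm_num; linarith
  have u1 : exp (7 / 8) ≤ (23988752939671 / 10000000000000) := by norm_num; linarith
  have e : exp (7 / 2) = exp (7 / 8) ^ 4 := by
    rw [← exp_nat_mul]; norm_num
  rw [e]
  constructor
  · refine le_trans ?_ (pow_le_pow_left₀ (by norm_num) l1 4)
    norm_num
  · refine (pow_le_pow_left₀ (exp_pos _).le u1 4).trans ?_
    norm_num

theorem b_piece_6 {s : ℝ} (h1 : 8 ≤ s) (h2 : s ≤ 13) (z : ℝ) :
    Af s + (-303 / 10000) * z + Tf s * (z * (s - z)) ≤ (1191 / 1000) * exp ((8 / 25) * s + (17 / 25) * z) := by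
  refine Pool.Agent.H26.RM.main (Tf := Tf) (Af := Af) (B := (-303 / 10000)) Tf_pos (by norm_num) (sc := (21 / 2)) (H := (5 / 2)) (z0c := (7 / 34)) (b := (-191 / 1000))
    (rc := (7 / 2)) (κ := (4753 / 25000)) (lo := (16557725979 / 500000000)) (hi := (33115451959 / 1000000000))
    (by norm_num) b_enc_6.1 b_enc_6.2 (by norm_num) (by norm_num) (by norm_num) (by norm_num) ?_ ?_
    (by linarith) (by linarith) z
  · intro h a1 a2
    have hu : 0 ≤ (5 / 2) - h := by linarith
    have hv : 0 ≤ (5 / 2) + h := by linarith
    have key := bern3 hu hv
      (show (0 : ℝ) ≤ (3363205569 / 15625000000) by norm_num)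
      (show (0 : ℝ) ≤ (3576413781 / 3906250000) by norm_num)
      (show (0 : ℝ) ≤ (20047623931 / 15625000000) by norm_num)
      (show (0 : ℝ) ≤ (144948134 / 244140625) by norm_num)
    refine key.trans_eq ?_
    unfold Tf
    ring
  · intro h a1 a2
    have hu : 0 ≤ (5 / 2) - h := by linarith
    have hv : 0 ≤ (5 / 2) + h := by linarith
    have key := bern9 hu hv
      (show (0 : ℝ) ≤ (253281417735204638436746459004607649697757017248307107 / 9155273437500000000000000000000000000000000000000000000000) by norm_num)
      (show (0 : ℝ) ≤ (1112622154521520690169134216387758968645413270129496643 / 3051757812500000000000000000000000000000000000000000000000) by norm_num)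
      (show (0 : ℝ) ≤ (2489906543806517271535496439284332009597876866630507 / 1220703125000000000000000000000000000000000000000000000) by norm_num)
      (show (0 : ℝ) ≤ (14878252416497541645845354388721884149519604210048033589 / 2288818359375000000000000000000000000000000000000000000000) by norm_num)
      (show (0 : ℝ) ≤ (19983972664366297746871330680658464336226504271588541643 / 1525878906250000000000000000000000000000000000000000000000) by norm_num)
      (show (0 : ℝ) ≤ (26519659483790259484762609928286323743358861945745442893 / 1525878906250000000000000000000000000000000000000000000000) by norm_num)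
      (show (0 : ℝ) ≤ (34896450441457630974521886140781839105473535970458216089 / 2288818359375000000000000000000000000000000000000000000000) by norm_num)
      (show (0 : ℝ) ≤ (10430598731731360643761422321548578596057660747113243 / 1220703125000000000000000000000000000000000000000000000) by norm_num)
      (show (0 : ℝ) ≤ (8478479672528340773054338502169275226305358041552925393 / 3051757812500000000000000000000000000000000000000000000000) by norm_num)
      (show (0 : ℝ) ≤ (3654030457988738793163380012033838725548638918597395857 / 9155273437500000000000000000000000000000000000000000000000) by norm_num)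
    refine key.trans_eq ?_
    unfold Tf Af
    ring

theorem b_enc_7 : ((10777007257 / 100000000) : ℝ) ≤ exp (117 / 25) ∧ exp (117 / 25) ≤ (5388503629 / 50000000) := by
  have hx : |((117 / 200) : ℝ)| ≤ 1 := by norm_num [abs_le]
  have h := Real.exp_bound hx (n := 16) (by norm_num)
  rw [abs_le] at h
  obtain ⟨h1, h2⟩ := h
  simp only [Finset.sum_range_succ, Finset.sum_range_zero, Nat.factorial] at h1 h2
  norm_num [abs_of_neg, abs_of_pos] at h1 h2
  have l1 : ((17949909856399 / 10000000000000) : ℝ) ≤ exp (117 / 200) := by norm_num; linarith
  have u1 : exp (117 / 200) ≤ (179499098563991 / 100000000000000) := by norm_num; linarith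
  have e : exp (117 / 25) = exp (117 / 200) ^ 8 := by
    rw [← exp_nat_mul]; norm_num
  rw [e]
  constructor
  · refine le_trans ?_ (pow_le_pow_left₀ (by norm_num) l1 8)
    norm_num
  · refine (pow_le_pow_left₀ (exp_pos _).le u1 8).trans ?_
    norm_num

theorem b_piece_7 {s : ℝ} (h1 : 13 ≤ s) (h2 : s ≤ 21) (z : ℝ) :
    Af s + (-303 / 10000) * z + Tf s * (z * (s - z)) ≤ (1191 / 1000) * exp ((8 / 25) * s + (17 / 25) * z) := by
  refine Pool.Agent.H26.RM.main (Tf := Tf) (Af := Af) (B := (-303 / 10000)) Tf_pos (by norm_num) (sc := 17) (H := 4) (z0c := (-19 / 17)) (b := (-297 / 1000))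
    (rc := (117 / 25)) (κ := (2951 / 25000)) (lo := (10777007257 / 100000000)) (hi := (5388503629 / 50000000))
    (by norm_num) b_enc_7.1 b_enc_7.2 (by norm_num) (by norm_num) (by norm_num) (by norm_num) ?_ ?_
    (by linarith) (by linarith) z
  · intro h a1 a2
    have hu : 0 ≤ 4 - h := by linarith
    have hv : 0 ≤ 4 + h := by linarith
    have key := bern3 hu hv
      (show (0 : ℝ) ≤ (5557234833 / 40000000000) by norm_num)
      (show (0 : ℝ) ≤ (24889509379 / 40000000000) by norm_num)
      (show (0 : ℝ) ≤ (7349052391 / 8000000000) by norm_num)
      (show (0 : ℝ) ≤ (17919394833 / 40000000000) by norm_num)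
    refine key.trans_eq ?_
    unfold Tf
    ring
  · intro h a1 a2
    have hu : 0 ≤ 4 - h := by linarith
    have hv : 0 ≤ 4 + h := by linarith
    have key := bern9 hu hv
      (show (0 : ℝ) ≤ (115459097098150349069451033443819771369337652878497 / 23437500000000000000000000000000000000000000000000000000) by norm_num)
      (show (0 : ℝ) ≤ (4666739424270466268092419226531940241236375603637277 / 70312500000000000000000000000000000000000000000000000000) by norm_num)
      (show (0 : ℝ) ≤ (424000726372612626665794732285915389697223197847 / 1125000000000000000000000000000000000000000000000000) by norm_num)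
      (show (0 : ℝ) ≤ (2366939002819875563909907089654474676390253775540873 / 1953125000000000000000000000000000000000000000000000000) by norm_num)
      (show (0 : ℝ) ≤ (86246776959018448612960760955612216169258540006912277 / 35156250000000000000000000000000000000000000000000000000) by norm_num)
      (show (0 : ℝ) ≤ (114656065719562936502422871922238916022051143059156027 / 35156250000000000000000000000000000000000000000000000000) by norm_num)
      (show (0 : ℝ) ≤ (16757391445236143982069163362758946105929549531641369 / 5859375000000000000000000000000000000000000000000000000) by norm_num)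
      (show (0 : ℝ) ≤ (1800177791101338610051055648334923214278185690141 / 1125000000000000000000000000000000000000000000000000) by norm_num)
      (show (0 : ℝ) ≤ (36512546770191380136021619792124209761200375019206027 / 70312500000000000000000000000000000000000000000000000000) by norm_num)
      (show (0 : ℝ) ≤ (582325889220975165325819536940990067004898276440749 / 7812500000000000000000000000000000000000000000000000000) by norm_num)
    refine key.trans_eq ?_
    unfold Tf Af
    ring

theorem b_enc_8 : ((156021332 / 390625) : ℝ) ≤ exp (599 / 100) ∧ exp (599 / 100) ≤ (39941460993 / 100000000) := by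
  have hx : |((599 / 800) : ℝ)| ≤ 1 := by norm_num [abs_le]
  have h := Real.exp_bound hx (n := 16) (by norm_num)
  rw [abs_le] at h
  obtain ⟨h1, h2⟩ := h
  simp only [Finset.sum_range_succ, Finset.sum_range_zero, Nat.factorial] at h1 h2
  norm_num [abs_of_neg, abs_of_pos] at h1 h2
  have l1 : ((8457421679237 / 4000000000000) : ℝ) ≤ exp (599 / 800) := by norm_num; linarith
  have u1 : exp (599 / 800) ≤ (105717770990463 / 50000000000000) := by norm_num; linarith
  have e : exp (599 / 100) = exp (599 / 800) ^ 8 := by
    rw [← exp_nat_mul]; norm_num
  rw [e]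
  constructor
  · refine le_trans ?_ (pow_le_pow_left₀ (by norm_num) l1 8)
    norm_num
  · refine (pow_le_pow_left₀ (exp_pos _).le u1 8).trans ?_
    norm_num

theorem b_piece_8 {s : ℝ} (h1 : 21 ≤ s) (h2 : s ≤ 35) (z : ℝ) :
    Af s + (-303 / 10000) * z + Tf s * (z * (s - z)) ≤ (1191 / 1000) * exp ((8 / 25) * s + (17 / 25) * z) := by
  refine Pool.Agent.H26.RM.main (Tf := Tf) (Af := Af) (B := (-303 / 10000)) Tf_pos (by norm_num) (sc := 28) (H := 7) (z0c := (-297 / 68)) (b := (-47 / 125))
    (rc := (599 / 100)) (κ := (201 / 3125)) (lo := (156021332 / 390625)) (hi := (39941460993 / 100000000))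
    (by norm_num) b_enc_8.1 b_enc_8.2 (by norm_num) (by norm_num) (by norm_num) (by norm_num) ?_ ?_
    (by linarith) (by linarith) z
  · intro h a1 a2
    have hu : 0 ≤ 7 - h := by linarith
    have hv : 0 ≤ 7 + h := by linarith
    have key := bern3 hu hv
      (show (0 : ℝ) ≤ (17203807713 / 214375000000) by norm_num)
      (show (0 : ℝ) ≤ (41071549601 / 107187500000) by norm_num)
      (show (0 : ℝ) ≤ (25910255177 / 42875000000) by norm_num)
      (show (0 : ℝ) ≤ (675950307 / 2143750000) by norm_num)
    refine key.trans_eq ?_
    unfold Tf
    ring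
  · intro h a1 a2
    have hu : 0 ≤ 7 - h := by linarith
    have hv : 0 ≤ 7 + h := by linarith
    have key := bern9 hu hv
      (show (0 : ℝ) ≤ (192572719745889066495843122798074032604910073055287 / 601315602660179138183593750000000000000000000000000000000) by norm_num)
      (show (0 : ℝ) ≤ (3079952996584942858752073524592693935693261363459139 / 601315602660179138183593750000000000000000000000000000000) by norm_num)
      (show (0 : ℝ) ≤ (1540637758113828415911725094959245964572347385931 / 48105248212814331054687500000000000000000000000000000) by norm_num)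
      (show (0 : ℝ) ≤ (2348099491133711471463582914564444716828663520039457 / 21475557237863540649414062500000000000000000000000000000) by norm_num)
      (show (0 : ℝ) ≤ (9883060508497071044534382642454730720063454287936127 / 42951114475727081298828125000000000000000000000000000000) by norm_num)
      (show (0 : ℝ) ≤ (13473002143588195104961615565434449370080811861498627 / 42951114475727081298828125000000000000000000000000000000) by norm_num)
      (show (0 : ℝ) ≤ (5999686619635420325262238843868835077376895772776957 / 21475557237863540649414062500000000000000000000000000000) by norm_num)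
      (show (0 : ℝ) ≤ (7584175731961635647848177279916371938384205830359 / 48105248212814331054687500000000000000000000000000000) by norm_num)
      (show (0 : ℝ) ≤ (30887376469170608118570206261856198572083758227546639 / 601315602660179138183593750000000000000000000000000000000) by norm_num)
      (show (0 : ℝ) ≤ (4440571543320933102492893002852545725620143841367787 / 601315602660179138183593750000000000000000000000000000000) by norm_num)
    refine key.trans_eq ?_
    unfold Tf Af
    ring

theorem b_enc_9 : ((612073773 / 500000) : ℝ) ≤ exp (711 / 100) ∧ exp (711 / 100) ≤ (12241475461 / 10000000) := by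
  have hx : |((711 / 800) : ℝ)| ≤ 1 := by norm_num [abs_le]
  have h := Real.exp_bound hx (n := 16) (by norm_num)
  rw [abs_le] at h
  obtain ⟨h1, h2⟩ := h
  simp only [Finset.sum_range_succ, Finset.sum_range_zero, Nat.factorial] at h1 h2
  norm_num [abs_of_neg, abs_of_pos] at h1 h2
  have l1 : ((121604382043917 / 50000000000000) : ℝ) ≤ exp (711 / 800) := by norm_num; linarith
  have u1 : exp (711 / 800) ≤ (243208764087837 / 100000000000000) := by norm_num; linarith
  have e : exp (711 / 100) = exp (711 / 800) ^ 8 := by
    rw [← exp_nat_mul]; norm_num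
  rw [e]
  constructor
  · refine le_trans ?_ (pow_le_pow_left₀ (by norm_num) l1 8)
    norm_num
  · refine (pow_le_pow_left₀ (exp_pos _).le u1 8).trans ?_
    norm_num

theorem b_piece_9 {s : ℝ} (h1 : 35 ≤ s) (h2 : s ≤ 49) (z : ℝ) :
    Af s + (-303 / 10000) * z + Tf s * (z * (s - z)) ≤ (1191 / 1000) * exp ((8 / 25) * s + (17 / 25) * z) := by
  refine Pool.Agent.H26.RM.main (Tf := Tf) (Af := Af) (B := (-303 / 10000)) Tf_pos (by norm_num) (sc := 42) (H := 7) (z0c := (-633 / 68)) (b := (-93 / 250))
    (rc := (711 / 100)) (κ := (419 / 6250)) (lo := (612073773 / 500000)) (hi := (12241475461 / 10000000))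
    (by norm_num) b_enc_9.1 b_enc_9.2 (by norm_num) (by norm_num) (by norm_num) (by norm_num) ?_ ?_
    (by linarith) (by linarith) z
  · intro h a1 a2
    have hu : 0 ≤ 7 - h := by linarith
    have hv : 0 ≤ 7 + h := by linarith
    have key := bern3 hu hv
      (show (0 : ℝ) ≤ (1336552617 / 4287500000) by norm_num)
      (show (0 : ℝ) ≤ (54620392059 / 42875000000) by norm_num)
      (show (0 : ℝ) ≤ (46423234357 / 26796875000) by norm_num)
      (show (0 : ℝ) ≤ (168080970499 / 214375000000) by norm_num)
    refine key.trans_eq ?_
    unfold Tf
    ring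
  · intro h a1 a2
    have hu : 0 ≤ 7 - h := by linarith
    have hv : 0 ≤ 7 + h := by linarith
    have key := bern9 hu hv
      (show (0 : ℝ) ≤ (4460388137623360703216865360864141209929784738798657 / 577262978553771972656250000000000000000000000000000000000) by norm_num)
      (show (0 : ℝ) ≤ (16702834539626837042051240661888762358917090573551343 / 192420992851257324218750000000000000000000000000000000000) by norm_num)
      (show (0 : ℝ) ≤ (165425435613396629094595564935461400536972536337 / 384841985702514648437500000000000000000000000000000) by norm_num)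
      (show (0 : ℝ) ≤ (12753344166970771941678004612916385611359746218081951 / 10308267474174499511718750000000000000000000000000000000) by norm_num)
      (show (0 : ℝ) ≤ (31349235103354775535239463144261330128692975883193049 / 13744356632232666015625000000000000000000000000000000000) by norm_num)
      (show (0 : ℝ) ≤ (38390672707576689758077799880856152625180690591993049 / 13744356632232666015625000000000000000000000000000000000) by norm_num)
      (show (0 : ℝ) ≤ (23427149478963293487256195610066596441773608093644451 / 10308267474174499511718750000000000000000000000000000000) by norm_num)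
      (show (0 : ℝ) ≤ (45581390104491922647876025351354851285328857571 / 38484198570251464843750000000000000000000000000000) by norm_num)
      (show (0 : ℝ) ≤ (68951685099384319827726668416293536285940853661301343 / 192420992851257324218750000000000000000000000000000000000) by norm_num)
      (show (0 : ℝ) ≤ (27615244875733197594100869789312548694442881071648657 / 577262978553771972656250000000000000000000000000000000000) by norm_num)
    refine key.trans_eq ?_
    unfold Tf Af
    ring

theorem b_enc_10 : ((3878280563 / 2000000) : ℝ) ≤ exp (757 / 100) ∧ exp (757 / 100) ≤ (302990669 / 156250) := by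
  have hx : |((757 / 800) : ℝ)| ≤ 1 := by norm_num [abs_le]
  have h := Real.exp_bound hx (n := 16) (by norm_num)
  rw [abs_le] at h
  obtain ⟨h1, h2⟩ := h
  simp only [Finset.sum_range_succ, Finset.sum_range_zero, Nat.factorial] at h1 h2
  norm_num [abs_of_neg, abs_of_pos] at h1 h2
  have l1 : ((257603140615973 / 100000000000000) : ℝ) ≤ exp (757 / 800) := by norm_num; linarith
  have u1 : exp (757 / 800) ≤ (128801570307989 / 50000000000000) := by norm_num; linarith
  have e : exp (757 / 100) = exp (757 / 800) ^ 8 := by
    rw [← exp_nat_mul]; norm_num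
  rw [e]
  constructor
  · refine le_trans ?_ (pow_le_pow_left₀ (by norm_num) l1 8)
    norm_num
  · refine (pow_le_pow_left₀ (exp_pos _).le u1 8).trans ?_
    norm_num

theorem b_piece_10 {s : ℝ} (h1 : 49 ≤ s) (h2 : s ≤ 50) (z : ℝ) :
    Af s + (-303 / 10000) * z + Tf s * (z * (s - z)) ≤ (1191 / 1000) * exp ((8 / 25) * s + (17 / 25) * z) := by
  refine Pool.Agent.H26.RM.main (Tf := Tf) (Af := Af) (B := (-303 / 10000)) Tf_pos (by norm_num) (sc := (99 / 2)) (H := (1 / 2)) (z0c := (-827 / 68)) (b := (-193 / 500))
    (rc := (757 / 100)) (κ := (719 / 12500)) (lo := (3878280563 / 2000000)) (hi := (302990669 / 156250))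
    (by norm_num) b_enc_10.1 b_enc_10.2 (by norm_num) (by norm_num) (by norm_num) (by norm_num) ?_ ?_
    (by linarith) (by linarith) z
  · intro h a1 a2
    have hu : 0 ≤ (1 / 2) - h := by linarith
    have hv : 0 ≤ (1 / 2) + h := by linarith
    have key := bern3 hu hv
      (show (0 : ℝ) ≤ (84164587421 / 39062500) by norm_num)
      (show (0 : ℝ) ≤ (2058190917127 / 312500000) by norm_num)
      (show (0 : ℝ) ≤ (104857294829 / 15625000) by norm_num)
      (show (0 : ℝ) ≤ (28491043077 / 12500000) by norm_num)
    refine key.trans_eq ?_
    unfold Tf
    ring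
  · intro h a1 a2
    have hu : 0 ≤ (1 / 2) - h := by linarith
    have hv : 0 ≤ (1 / 2) + h := by linarith
    have key := bern9 hu hv
      (show (0 : ℝ) ≤ (85187877810925776993260890024769142434974654317355471711 / 85830688476562500000000000000000000000000000000000) by norm_num)
      (show (0 : ℝ) ≤ (6208381137034445730522149312713868613541068751415018932061 / 686645507812500000000000000000000000000000000000000) by norm_num)
      (show (0 : ℝ) ≤ (804359793731393756302238583103231573742942899693682203 / 21972656250000000000000000000000000000000000000) by norm_num)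
      (show (0 : ℝ) ≤ (29682679660737890937706312202055484566141466631628024522877 / 343322753906250000000000000000000000000000000000000) by norm_num)
      (show (0 : ℝ) ≤ (45065502182359637157496888898618578477282440480998562563311 / 343322753906250000000000000000000000000000000000000) by norm_num)
      (show (0 : ℝ) ≤ (22806464399263564375583377002017787370009682894965772105093 / 171661376953125000000000000000000000000000000000000) by norm_num)
      (show (0 : ℝ) ≤ (30777569279229971404941745006609069279859572237493283710377 / 343322753906250000000000000000000000000000000000000) by norm_num)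
      (show (0 : ℝ) ≤ (170883043372399525016344958886155526358326176768332343 / 4394531250000000000000000000000000000000000000) by norm_num)
      (show (0 : ℝ) ≤ (3377958443558403445186073756474575463636610597899719817593 / 343322753906250000000000000000000000000000000000000) by norm_num)
      (show (0 : ℝ) ≤ (253244268129190971264519607854541840048263934221456736021 / 228881835937500000000000000000000000000000000000000) by norm_num)
    refine key.trans_eq ?_
    unfold Tf Af
    ring

theorem b_central {s : ℝ} (h1 : -4 ≤ s) (h2 : s ≤ 50) (z : ℝ) :
    Af s + (-303 / 10000) * z + Tf s * (z * (s - z)) ≤ (1191 / 1000) * exp ((8 / 25) * s + (17 / 25) * z) := by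
  by_cases g0 : s ≤ (-5 / 2)
  · exact b_piece_0 (by linarith) g0 z
  rw [not_le] at g0
  by_cases g1 : s ≤ (-1)
  · exact b_piece_1 (by linarith) g1 z
  rw [not_le] at g1
  by_cases g2 : s ≤ (1 / 2)
  · exact b_piece_2 (by linarith) g2 z
  rw [not_le] at g2
  by_cases g3 : s ≤ (5 / 2)
  · exact b_piece_3 (by linarith) g3 z
  rw [not_le] at g3
  by_cases g4 : s ≤ 5
  · exact b_piece_4 (by linarith) g4 z
  rw [not_le] at g4
  by_cases g5 : s ≤ 8
  · exact b_piece_5 (by linarith) g5 z
  rw [not_le] at g5
  by_cases g6 : s ≤ 13
  · exact b_piece_6 (by linarith) g6 z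
  rw [not_le] at g6
  by_cases g7 : s ≤ 21
  · exact b_piece_7 (by linarith) g7 z
  rw [not_le] at g7
  by_cases g8 : s ≤ 35
  · exact b_piece_8 (by linarith) g8 z
  rw [not_le] at g8
  by_cases g9 : s ≤ 49
  · exact b_piece_9 (by linarith) g9 z
  rw [not_le] at g9
  exact b_piece_10 (by linarith) (by linarith) z

theorem fl_0 {s : ℝ} (h1 : (-10) ≤ s) (h2 : s ≤ (-4)) : ((-303 / 10000) + Tf s * s) ^ 2 + 4 * Tf s * Af s ≤ 0 := by
  obtain ⟨h, rfl⟩ : ∃ h, s = (-7) + h := ⟨s - (-7), by ring⟩
  have hu : 0 ≤ 3 - h := by linarith
  have hv : 0 ≤ 3 + h := by linarith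
  have key := bern7 hu hv
    (show (0 : ℝ) ≤ (3968399 / 3110400000000) by norm_num)
    (show (0 : ℝ) ≤ (112765679 / 9331200000000) by norm_num)
    (show (0 : ℝ) ≤ (180761527 / 3110400000000) by norm_num)
    (show (0 : ℝ) ≤ (1950608473 / 15552000000000) by norm_num)
    (show (0 : ℝ) ≤ (6007382891 / 46656000000000) by norm_num)
    (show (0 : ℝ) ≤ (5021653567 / 77760000000000) by norm_num)
    (show (0 : ℝ) ≤ (2023479787 / 129600000000000) by norm_num)
    (show (0 : ℝ) ≤ (7083479021 / 5832000000000000) by norm_num)
  have e : ((-303 / 10000) + Tf ((-7) + h) * ((-7) + h)) ^ 2 + 4 * Tf ((-7) + h) * Af ((-7) + h) = -(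
      (3968399 / 3110400000000) * (3 - h) ^ 7 +
      (112765679 / 9331200000000) * ((3 - h) ^ 6 * (3 + h)) +
      (180761527 / 3110400000000) * ((3 - h) ^ 5 * (3 + h) ^ 2) +
      (1950608473 / 15552000000000) * ((3 - h) ^ 4 * (3 + h) ^ 3) +
      (6007382891 / 46656000000000) * ((3 - h) ^ 3 * (3 + h) ^ 4) +
      (5021653567 / 77760000000000) * ((3 - h) ^ 2 * (3 + h) ^ 5) +
      (2023479787 / 129600000000000) * ((3 - h) * (3 + h) ^ 6) +
      (7083479021 / 5832000000000000) * (3 + h) ^ 7) := by
    unfold Tf Af
    ring
  rw [e]
  linarith

theorem fl_1 {s : ℝ} (h1 : (-26) ≤ s) (h2 : s ≤ (-10)) : ((-303 / 10000) + Tf s * s) ^ 2 + 4 * Tf s * Af s ≤ 0 := by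
  obtain ⟨h, rfl⟩ : ∃ h, s = (-18) + h := ⟨s - (-18), by ring⟩
  have hu : 0 ≤ 8 - h := by linarith
  have hv : 0 ≤ 8 + h := by linarith
  have key := bern7 hu hv
    (show (0 : ℝ) ≤ (6243007592567 / 16777216000000000000) by norm_num)
    (show (0 : ℝ) ≤ (8479739152429 / 3355443200000000000) by norm_num)
    (show (0 : ℝ) ≤ (3611153412347 / 671088640000000000) by norm_num)
    (show (0 : ℝ) ≤ (488118895177 / 134217728000000000) by norm_num)
    (show (0 : ℝ) ≤ (126033747433 / 134217728000000000) by norm_num)
    (show (0 : ℝ) ≤ (1805680083 / 26843545600000000) by norm_num)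
    (show (0 : ℝ) ≤ (14574737 / 26843545600000000) by norm_num)
    (show (0 : ℝ) ≤ (35715591 / 26843545600000000) by norm_num)
  have e : ((-303 / 10000) + Tf ((-18) + h) * ((-18) + h)) ^ 2 + 4 * Tf ((-18) + h) * Af ((-18) + h) = -(
      (6243007592567 / 16777216000000000000) * (8 - h) ^ 7 +
      (8479739152429 / 3355443200000000000) * ((8 - h) ^ 6 * (8 + h)) +
      (3611153412347 / 671088640000000000) * ((8 - h) ^ 5 * (8 + h) ^ 2) +
      (488118895177 / 134217728000000000) * ((8 - h) ^ 4 * (8 + h) ^ 3) +
      (126033747433 / 134217728000000000) * ((8 - h) ^ 3 * (8 + h) ^ 4) +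
      (1805680083 / 26843545600000000) * ((8 - h) ^ 2 * (8 + h) ^ 5) +
      (14574737 / 26843545600000000) * ((8 - h) * (8 + h) ^ 6) +
      (35715591 / 26843545600000000) * (8 + h) ^ 7) := by
    unfold Tf Af
    ring
  rw [e]
  linarith

theorem fl_2 {s : ℝ} (h1 : (-34) ≤ s) (h2 : s ≤ (-26)) : ((-303 / 10000) + Tf s * s) ^ 2 + 4 * Tf s * Af s ≤ 0 := by
  obtain ⟨h, rfl⟩ : ∃ h, s = (-30) + h := ⟨s - (-30), by ring⟩
  have hu : 0 ≤ 4 - h := by linarith
  have hv : 0 ≤ 4 + h := by linarith
  have key := bern7 hu hv
    (show (0 : ℝ) ≤ (1215418071783 / 131072000000000000) by norm_num)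
    (show (0 : ℝ) ≤ (6760847582369 / 131072000000000000) by norm_num)
    (show (0 : ℝ) ≤ (48899837517843 / 131072000000000000) by norm_num)
    (show (0 : ℝ) ≤ (27653773335169 / 26214400000000000) by norm_num)
    (show (0 : ℝ) ≤ (36724647870481 / 26214400000000000) by norm_num)
    (show (0 : ℝ) ≤ (126757686646307 / 131072000000000000) by norm_num)
    (show (0 : ℝ) ≤ (44352231840881 / 131072000000000000) by norm_num)
    (show (0 : ℝ) ≤ (6243007592567 / 131072000000000000) by norm_num)
  have e : ((-303 / 10000) + Tf ((-30) + h) * ((-30) + h)) ^ 2 + 4 * Tf ((-30) + h) * Af ((-30) + h) = -(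
      (1215418071783 / 131072000000000000) * (4 - h) ^ 7 +
      (6760847582369 / 131072000000000000) * ((4 - h) ^ 6 * (4 + h)) +
      (48899837517843 / 131072000000000000) * ((4 - h) ^ 5 * (4 + h) ^ 2) +
      (27653773335169 / 26214400000000000) * ((4 - h) ^ 4 * (4 + h) ^ 3) +
      (36724647870481 / 26214400000000000) * ((4 - h) ^ 3 * (4 + h) ^ 4) +
      (126757686646307 / 131072000000000000) * ((4 - h) ^ 2 * (4 + h) ^ 5) +
      (44352231840881 / 131072000000000000) * ((4 - h) * (4 + h) ^ 6) +
      (6243007592567 / 131072000000000000) * (4 + h) ^ 7) := by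
    unfold Tf Af
    ring
  rw [e]
  linarith

theorem fl_last {s : ℝ} (h : s ≤ (-34)) : ((-303 / 10000) + Tf s * s) ^ 2 + 4 * Tf s * Af s ≤ 0 := by
  obtain ⟨r, rfl⟩ : ∃ r, s = (-34) - r := ⟨(-34) - s, by ring⟩
  have hr : 0 ≤ r := by linarith
  have e : ((-303 / 10000) + Tf ((-34) - r) * ((-34) - r)) ^ 2 + 4 * Tf ((-34) - r) * Af ((-34) - r) = -(
      (1215418071783 / 62500000000) * r ^ 0 +
      (109192432507 / 31250000000) * r ^ 1 +
      (529039555173 / 62500000000) * r ^ 2 +
      (9249460877 / 6250000000) * r ^ 3 +
      (655977263 / 6250000000) * r ^ 4 +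
      (464372089 / 125000000000) * r ^ 5 +
      (8187397 / 125000000000) * r ^ 6 +
      (14381 / 31250000000) * r ^ 7) := by
    unfold Tf Af
    ring
  rw [e]
  have : (0 : ℝ) ≤ (1215418071783 / 62500000000) * r ^ 0 +
      (109192432507 / 31250000000) * r ^ 1 +
      (529039555173 / 62500000000) * r ^ 2 +
      (9249460877 / 6250000000) * r ^ 3 +
      (655977263 / 6250000000) * r ^ 4 +
      (464372089 / 125000000000) * r ^ 5 +
      (8187397 / 125000000000) * r ^ 6 +
      (14381 / 31250000000) * r ^ 7 := by positivity
  linarith

theorem far_left {s : ℝ} (h : s ≤ -4) (z : ℝ) : Af s + (-303 / 10000) * z + Tf s * (z * (s - z)) ≤ 0 := by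
  refine le_max (Tf_pos s) ?_
  by_cases g0 : (-10) ≤ s
  · exact fl_0 g0 (by linarith)
  rw [not_le] at g0
  by_cases g1 : (-26) ≤ s
  · exact fl_1 g1 (by linarith)
  rw [not_le] at g1
  by_cases g2 : (-34) ≤ s
  · exact fl_2 g2 (by linarith)
  rw [not_le] at g2
  exact fl_last (by linarith)

/-- bound by a function of `s` -/
noncomputable def Gf (s : ℝ) : ℝ := (4071809 / 3980000) * s ^ 0 + (11997 / 20000) * s ^ 1 + (1377 / 8000) * s ^ 2 + (1259 / 40000) * s ^ 3 + (73 / 50000) * s ^ 4 + (197 / 10000000) * s ^ 5

theorem le_Gf (s z : ℝ) : Af s + (-303 / 10000) * z + Tf s * (z * (s - z)) ≤ Gf s := by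
  refine (le_sq (T0 := (199 / 20000)) (by norm_num) (Tf_ge s)).trans (le_of_eq ?_)
  unfold Af Tf Gf
  ring

theorem far_right {s : ℝ} (h : 50 ≤ s) : Gf s ≤ 1 / 10 ^ 6 * exp (s / 2) := by
  obtain ⟨r, rfl⟩ : ∃ r, s = 50 + r := ⟨s - 50, by ring⟩
  have hr : 0 ≤ r := by linarith
  have h1 := exp_big hr
  have e1 : (50 + r) / 2 = 25 + r / 2 := by ring
  rw [e1]
  have e : 1 / 10 ^ 6 * ((6 : ℝ) * 10 ^ 10 * (1 + r / 10) ^ 5) - Gf (50 + r) =
      (160485726791 / 3980000) * r ^ 0 + (568010003 / 20000) * r ^ 1 + (47588653 / 8000) * r ^ 2 + (23967361 / 40000) * r ^ 3 + (5998723 / 200000) * r ^ 4 + (5999803 / 10000000) * r ^ 5 := by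
    unfold Gf
    ring
  have h2 : (0 : ℝ) ≤ (160485726791 / 3980000) * r ^ 0 + (568010003 / 20000) * r ^ 1 + (47588653 / 8000) * r ^ 2 + (23967361 / 40000) * r ^ 3 + (5998723 / 200000) * r ^ 4 + (5999803 / 10000000) * r ^ 5 := by positivity
  have h3 : 1 / 10 ^ 6 * ((6 : ℝ) * 10 ^ 10 * (1 + r / 10) ^ 5) ≤ 1 / 10 ^ 6 * exp (25 + r / 2) :=
    mul_le_mul_of_nonneg_left h1 (by norm_num)
  linarith

/-- the test polynomial -/
noncomputable def P0 (y z : ℝ) : ℝ :=
  1 + (123 / 200) * y + (5847 / 10000) * z + y * z * ((1377 / 2000) + (1259 / 10000) * (y + z) + (73 / 12500) * (y + z) ^ 2) + (197 / 10000000) * (y + z) ^ 5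

theorem P0_eq (y z : ℝ) : P0 y z = Af (y + z) + (-303 / 10000) * z + Tf (y + z) * (z * ((y + z) - z)) := by
  unfold P0 Af Tf
  ring

theorem red0 (y z : ℝ) : P0 y z ≤ (1151 / 1000) * exp (y + (131 / 400) * z) + 1 / 10 ^ 6 * (exp y + exp z) := by
  have hE := exp_pos (y + (131 / 400) * z)
  have ht : 0 ≤ 1 / 10 ^ 6 * (exp y + exp z) := by positivity
  rcases le_total (y + z) (-4) with h1 | h1
  · have h2 := far_left h1 z
    rw [P0_eq]
    linarith
  rcases le_total (y + z) 50 with h2 | h2
  · have h3 := r_central h1 h2 z
    have e : 1 * (y + z) + (-269 / 400) * z = y + (131 / 400) * z := by ring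
    rw [e] at h3
    rw [P0_eq]
    linarith
  · have h3 := far_right h2
    have h4 := le_Gf (y + z) z
    have h5 := tail_ge y z
    rw [P0_eq]
    have h6 : 1 / 10 ^ 6 * exp ((y + z) / 2) ≤ 1 / 10 ^ 6 * (exp y + exp z) :=
      mul_le_mul_of_nonneg_left h5 (by norm_num)
    linarith

theorem blue0 (y z : ℝ) : P0 y z ≤ (1191 / 1000) * exp (z + (8 / 25) * y) + 1 / 10 ^ 6 * (exp y + exp z) := by
  have hE := exp_pos (z + (8 / 25) * y)
  have ht : 0 ≤ 1 / 10 ^ 6 * (exp y + exp z) := by positivity
  rcases le_total (y + z) (-4) with h1 | h1
  · have h2 := far_left h1 z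
    rw [P0_eq]
    linarith
  rcases le_total (y + z) 50 with h2 | h2
  · have h3 := b_central h1 h2 z
    have e : (8 / 25) * (y + z) + (17 / 25) * z = z + (8 / 25) * y := by ring
    rw [e] at h3
    rw [P0_eq]
    linarith
  · have h3 := far_right h2
    have h4 := le_Gf (y + z) z
    have h5 := tail_ge y z
    rw [P0_eq]
    have h6 : 1 / 10 ^ 6 * exp ((y + z) / 2) ≤ 1 / 10 ^ 6 * (exp y + exp z) :=
      mul_le_mul_of_nonneg_left h5 (by norm_num)
    linarith

theorem growth0 (y z : ℝ) : P0 y z ≤ 100 * (1 + (max y 0) ^ 5 + (max z 0) ^ 5) := by
  have ha : 0 ≤ max y 0 := le_max_right _ _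
  have hb : 0 ≤ max z 0 := le_max_right _ _
  have ha5 := pow_nonneg ha 5
  have hb5 := pow_nonneg hb 5
  rw [P0_eq]
  rcases le_total (y + z) (-4) with h1 | h1
  · have := far_left h1 z
    linarith
  have hs : y + z ≤ max y 0 + max z 0 := add_le_add (le_max_left _ _) (le_max_left _ _)
  refine (le_Gf (y + z) z).trans ?_
  rcases le_total (y + z) 0 with h2 | h2
  · have h3 : Gf (y + z) ≤ 100 := by
      unfold Gf
      set x := y + z
      have e1 : x ^ 5 ≤ 0 := by
        have : x ^ 5 = x ^ 4 * x := by ring
        rw [this]
        exact mul_nonpos_of_nonneg_of_nonpos (by positivity) h2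
      have e3 : x ^ 3 ≤ 0 := by
        have : x ^ 3 = x ^ 2 * x := by ring
        rw [this]
        exact mul_nonpos_of_nonneg_of_nonpos (by positivity) h2
      have e2 : x ^ 2 ≤ 16 := by nlinarith
      have e4 : x ^ 4 ≤ 256 := by
        have : x ^ 4 = x ^ 2 * x ^ 2 := by ring
        rw [this]
        nlinarith [sq_nonneg x]
      have e0 : x ^ 0 = 1 := pow_zero x
      have e6 : x ^ 1 ≤ 0 := by rw [pow_one]; exact h2
      rw [e0]
      linarith
    linarith
  · have h5 : (y + z) ^ 5 ≤ 16 * ((max y 0) ^ 5 + (max z 0) ^ 5) :=
      (pow_le_pow_left₀ h2 hs 5).trans (sum_pow_le ha hb)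
    have k1 := pow_le_one_add h2 (k := 1) (by norm_num)
    have k2 := pow_le_one_add h2 (k := 2) (by norm_num)
    have k3 := pow_le_one_add h2 (k := 3) (by norm_num)
    have k4 := pow_le_one_add h2 (k := 4) (by norm_num)
    unfold Gf
    rw [pow_zero]
    linarith

/-- the coefficients of the test polynomial, in units of `1 / 10 ^ 7` -/
def cfN : ℕ → ℕ → ℕ
  | 0, 0 => 10000000
  | 1, 0 => 6150000
  | 0, 1 => 5847000
  | 1, 1 => 6885000
  | 2, 1 => 1259000
  | 1, 2 => 1259000
  | 3, 1 => 58400
  | 2, 2 => 116800
  | 1, 3 => 58400
  | 5, 0 => 197
  | 4, 1 => 985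
  | 3, 2 => 1970
  | 2, 3 => 1970
  | 1, 4 => 985
  | 0, 5 => 197
  | _, _ => 0

/-- the coefficients of the test polynomial -/
noncomputable def cf (i j : ℕ) : ℝ := (cfN i j : ℝ) / 10000000

theorem cf_nonneg (i j : ℕ) : 0 ≤ cf i j := by
  unfold cf
  positivity

theorem cf_zero : cf 0 0 = 1 := by
  unfold cf cfN
  norm_num

theorem pol_eq (y z : ℝ) : Pool.Agent.H34.RM.pol 6 cf y z = P0 y z := by
  unfold Pool.Agent.H34.RM.pol P0
  simp only [Finset.sum_range_succ, Finset.sum_range_zero, cf, cfN]
  push_cast
  ring

/-- red inequality of the certificate -/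
theorem cert_red (y z : ℝ) : Pool.Agent.H34.RM.pol 6 cf y z ≤ (1151 / 1000) * exp (y + (131 / 400) * z) + 1 / 10 ^ 6 * (exp y + exp z) := by
  rw [pol_eq]
  exact red0 y z

/-- blue inequality of the certificate -/
theorem cert_blue (y z : ℝ) : Pool.Agent.H34.RM.pol 6 cf y z ≤ (1191 / 1000) * exp (z + (8 / 25) * y) + 1 / 10 ^ 6 * (exp y + exp z) := by
  rw [pol_eq]
  exact blue0 y z

/-- growth of the test polynomial -/
theorem growth (y z : ℝ) :
    Pool.Agent.H34.RM.pol 6 cf y z ≤ 100 * (1 + (max y 0) ^ 5 + (max z 0) ^ 5) := by
  rw [pol_eq]
  exact growth0 y z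

end Pool.Agent.H26.RM.ShpA
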